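import Mathlib

/- The real inequality behind the violation. -/

set_option autoImplicit false

namespace Pool.Agent.MP_644200_nt

theorem log_le_lin {q : ℝ} (hq : 8 ≤ q) : 201 / 10 * q * Real.log q ≤ (q - 1) ^ 3 := by
  have h1 : Real.log (q / 8) ≤ q / 8 - 1 := Real.log_le_sub_one_of_pos (by positivity)
  have h2 : Real.log 8 = 3 * Real.log 2 := by
    rw [show (8 : ℝ) = 2 ^ 3 by norm_num, Real.log_pow]; norm_num
  rw [Real.log_div (by positivity) (by norm_num), h2] at h1
  have h3 := Real.log_two_lt_d9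
  have h4 : Real.log q ≤ q / 8 + 108 / 100 := by linarith
  have h5 : 201 / 10 * q * Real.log q ≤ 201 / 10 * q * (q / 8 + 108 / 100) := by gcongr
  obtain ⟨x, rfl⟩ : ∃ x, q = 8 + x := ⟨q - 8, by ring⟩
  have hx : 0 ≤ x := by linarith
  nlinarith [pow_nonneg hx 3, pow_nonneg hx 2]

theorem final_ineq {q N a g p p' : ℝ} {d : ℕ} (hq : 8 ≤ q) (hd : 0 < d) (hp : 1 ≤ p)
    (hpa : p ≤ a) (hp' : a + g ≤ p') (hb : a + g ≤ q ^ d) (hNa : N ≤ a) (hN : 1000 ≤ N)
    (hg : 0 < g) (h1 : 998 / 1000 * (a + g) ≤ N * d)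
    (h2 : (q - 1) ^ 3 * d ^ 2 ≤ 1601 / 100 * q * g) :
    1 + Real.log N / (4 * N ^ 2) < p' ^ (1 / (N + 1)) / p ^ (1 / N) := by
  have hd' : (0 : ℝ) < d := by exact_mod_cast hd
  have ha : 0 < a := by linarith
  have hq0 : 0 < q := by linarith
  have hlq : 0 < Real.log q := Real.log_pos (by linarith)
  rw [Real.rpow_def_of_pos (by linarith), Real.rpow_def_of_pos (by linarith), ← Real.exp_sub]
  refine lt_of_lt_of_le ?_ ((add_comm _ _).trans_le (Real.add_one_le_exp _))
  have l1 : Real.log p ≤ Real.log a := Real.log_le_log (by linarith) hpa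
  have l2 : Real.log (a + g) ≤ Real.log p' := Real.log_le_log (by linarith) hp'
  have l3 : Real.log a ≤ d * Real.log q := by
    rw [← Real.log_pow]; exact Real.log_le_log ha (by linarith)
  have l4 : Real.log N ≤ Real.log a := Real.log_le_log (by linarith) hNa
  have l5 : g / (a + g) ≤ Real.log (a + g) - Real.log a := by
    have := Real.log_le_sub_one_of_pos (show 0 < a / (a + g) by positivity)
    rw [Real.log_div ha.ne' (by positivity)] at this
    have e : a / (a + g) - 1 = -(g / (a + g)) := by field_simp; ring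
    linarith
  have l6 : 998 / 1000 * g / d ≤ N * (g / (a + g)) := by
    rw [← mul_div_assoc, div_le_div_iff₀ hd' (by positivity)]
    nlinarith
  have l7 : 1252 / 1000 * (d * Real.log q) ≤ 998 / 1000 * g / d := by
    rw [le_div_iff₀ hd']
    have h3 := mul_le_mul_of_nonneg_right (log_le_lin hq) (sq_nonneg (d : ℝ))
    have h4 : q * (201 / 10 * Real.log q * d ^ 2) ≤ q * (1601 / 100 * g) := by linarith
    have h5 := le_of_mul_le_mul_left h4 hq0
    nlinarith [mul_pos hlq (pow_pos hd' 2)]
  have hE : 252 / 1000 * (d * Real.log q) ≤ N * Real.log p' - (N + 1) * Real.log p := by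
    have := mul_le_mul_of_nonneg_left (l5.trans (sub_le_sub l2 le_rfl)) (show 0 ≤ N by linarith)
    nlinarith
  have hL : 0 < d * Real.log q := by positivity
  have e : Real.log p' * (1 / (N + 1)) - Real.log p * (1 / N) =
      (N * Real.log p' - (N + 1) * Real.log p) / (N * (N + 1)) := by
    field_simp
  rw [add_lt_add_iff_left, e, div_lt_div_iff₀ (by positivity) (by positivity)]
  have m1 : Real.log N * (N * (N + 1)) ≤ d * Real.log q * (N * (N + 1)) := by
    gcongr; linarith
  have m2 : 252 / 1000 * (d * Real.log q) * (4 * N ^ 2) ≤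
      (N * Real.log p' - (N + 1) * Real.log p) * (4 * N ^ 2) := by gcongr
  have m3 : 0 < d * Real.log q * (N * (8 / 1000 * N - 1)) := by
    have : 0 < 8 / 1000 * N - 1 := by linarith
    positivity
  nlinarith

end Pool.Agent.MP_644200_nt
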