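import Mathlib

set_option autoImplicit false

namespace Pool.Agent.MP_644200_nt

open Polynomial

variable {F : Type*} [Field F] [Fintype F]

/-- The position of a monic polynomial `f` in the list `1, X + .., X ^ 2 + .., ..` of all monic
polynomials, ordered by degree and, within one degree, lexicographically from the top coefficient
down, the elements of `F` being ordered by `dig`. -/
def pos (dig : F ≃ Fin (Fintype.card F)) (f : F[X]) : ℕ :=
  1 + ∑ i ∈ Finset.range f.natDegree, ((dig (f.coeff i) : ℕ) + 1) * Fintype.card F ^ i

/-- The position of the `n`-th monic irreducible polynomial, `n ≥ 1`. -/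
noncomputable def pr (dig : F ≃ Fin (Fintype.card F)) (n : ℕ) : ℕ :=
  Nat.nth (fun m => ∃ f : F[X], f.Monic ∧ Irreducible f ∧ pos dig f = m) (n - 1)

end Pool.Agent.MP_644200_nt
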