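import Mathlib
import Pool.Agent.MP_c853c5_nt.Const

/- Parity of the number of prime factors of `s ^ 4 + g` in characteristic two. -/

set_option autoImplicit false

namespace Pool.Agent.MP_644200_nt

open Polynomial Finset Pool.Agent.MP_4fffd4_nt Pool.Agent.MP_c853c5_nt

section Ring

variable {R : Type*} [CommRing R]

theorem prod_eval_scal {n d : ℕ} (hdn : d ≤ n) (a : Fin n → R) (b : Fin d → R) (γ : R)
    (V : R[X]) (hV : V.Monic) (hev : Even V.natDegree)
    (h : V ∣ (∏ i, (X - C (a i))) - C γ * ∏ j, (X - C (b j))) :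
    ∏ i, V.eval (a i) = γ ^ V.natDegree * ∏ j, V.eval (b j) := by
  nontriviality R
  obtain ⟨Y, hY⟩ := h
  have ha : (∏ i, (X - C (a i))).natDegree = n := by
    rw [natDegree_prod_of_monic _ _ (fun i _ => monic_X_sub_C _)]
    simp
  have hb : (∏ j, (X - C (b j))).natDegree = d := by
    rw [natDegree_prod_of_monic _ _ (fun i _ => monic_X_sub_C _)]
    simp
  have hb' : (C γ * ∏ j, (X - C (b j))).natDegree ≤ d := (natDegree_C_mul_le _ _).trans hb.le
  rw [← resultant_prod_X_sub_C a V V.natDegree le_rfl,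
    ← resultant_prod_X_sub_C b V V.natDegree le_rfl, Fintype.card_fin, Fintype.card_fin,
    ← resultant_C_mul_left]
  have h1 := resultant_add_left_deg (C γ * ∏ j, (X - C (b j))) V d V.natDegree (n - d) hb'
  rw [Nat.add_sub_cancel' hdn, hV.coeff_natDegree, one_pow, mul_one, pow_mul, hev.neg_one_pow,
    one_pow, one_mul] at h1
  rw [← h1]
  by_cases hY0 : Y = 0
  · rw [hY0, mul_zero, sub_eq_zero] at hY
    rw [hY]
  have e : (∏ i, (X - C (a i))) = (C γ * ∏ j, (X - C (b j))) + V * Y := by
    rw [← hY]; ring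
  rw [e, resultant_add_mul_left _ _ _ _ _ _ le_rfl]
  have : (V * Y).natDegree ≤ n := by
    rw [← hY]
    exact (natDegree_sub_le _ _).trans (max_le ha.le (hb'.trans hdn))
  rw [hV.natDegree_mul' hY0] at this
  omega

theorem prod_pert {K : Type*} [Field K] (ν : R →+* K) (hν : ∀ x, ν x = 0 → (2 : R) ∣ x)
    (hu : ∀ x, ν x ≠ 0 → IsUnit x) (h8 : (8 : R) = 0) {n : ℕ} (a : Fin n → R) (V Z : R[X])
    (hne : ν (∏ i, (derivative (∏ j, (X - C (a j)))).eval (a i)) ≠ 0)
    (hV : derivative (∏ j, (X - C (a j))) = V + 4 * Z) (hZ : (Z.map ν).degree < (n - 1 : ℕ)) :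
    ∏ i, (derivative (∏ j, (X - C (a j)))).eval (a i) = ∏ i, V.eval (a i) := by
  classical
  have hev : ∀ i, (derivative (∏ j, (X - C (a j)))).eval (a i) =
      ∏ j ∈ univ.erase i, (a i - a j) := fun i => by
    have := Lagrange.eval_nodal_derivative_eval_node_eq (s := univ) (v := a) (mem_univ i)
    rwa [Lagrange.eval_nodal] at this
  rw [map_prod, Finset.prod_ne_zero_iff] at hne
  have hne' : ∀ i, ∏ j ∈ univ.erase i, (ν (a i) - ν (a j)) ≠ 0 := fun i => by
    have := hne i (mem_univ i)
    rwa [hev, map_prod, Finset.prod_congr rfl fun j _ => map_sub ν (a i) (a j)] at this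
  have hinj : Set.InjOn (fun i => ν (a i)) (univ : Finset (Fin n)) := fun i _ j _ hij => by
    by_contra hc
    exact hne' i (Finset.prod_eq_zero (mem_erase.2 ⟨Ne.symm hc, mem_univ j⟩) (sub_eq_zero.2 hij))
  have hsum := Lagrange.coeff_eq_sum hinj (P := Z.map ν) (by
    rw [card_univ, Fintype.card_fin]
    exact hZ.trans_le (by exact_mod_cast Nat.sub_le n 1))
  rw [card_univ, Fintype.card_fin, coeff_eq_zero_of_degree_lt hZ] at hsum
  choose v hv using fun i => (hu _ (hne i (mem_univ i))).exists_right_inv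
  have h1 : ∀ i, V.eval (a i) = (derivative (∏ j, (X - C (a j)))).eval (a i) *
      (1 + 4 * (-(Z.eval (a i) * v i))) := fun i => by
    have h2 := congrArg (eval (a i)) hV
    rw [eval_add, eval_mul, show eval (a i) (4 : R[X]) = 4 by simp] at h2
    linear_combination -h2 + 4 * Z.eval (a i) * hv i
  rw [Finset.prod_congr rfl fun i _ => h1 i, Finset.prod_mul_distrib, prod_one_add_four h8]
  obtain ⟨y, hy⟩ := hν (∑ i, -(Z.eval (a i) * v i)) (by
    rw [map_sum, ← neg_eq_zero, ← Finset.sum_neg_distrib, hsum]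
    refine Finset.sum_congr rfl fun i _ => ?_
    have h3 := congrArg ν (hv i)
    rw [map_mul, map_one, hev, map_prod,
      Finset.prod_congr rfl fun j _ => map_sub ν (a i) (a j)] at h3
    rw [map_neg, neg_neg, map_mul, eval_map, eval₂_hom, eq_div_iff (hne' i)]
    linear_combination ν (Z.eval (a i)) * h3)
  rw [hy]
  linear_combination (-(∏ i, (derivative (∏ j, (X - C (a j)))).eval (a i)) * y) * h8

theorem monic_deriv [Nontrivial R] {G : R[X]} (hG : G.Monic) {k : ℕ} (hd : G.natDegree = k + 1)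
    (hk : (k : R) = 0) : (derivative G).Monic ∧ (derivative G).natDegree = k := by
  simpa using monic_wr hG (r := 0) (k := k) (by omega) hk

end Ring

variable {F : Type*} [Field F] [Fintype F] [CharP F 2]

theorem liou_flip_four {m : ℕ} {w t g : F[X]} {c : F} (hc : c ≠ 0) (hw : w.Monic) (ht : t.Monic)
    (hg : g.Monic) (hsep : g.Separable) (hd : g.natDegree = 8 * m + 1)
    (hgw : derivative g = w ^ 2) (hev : Even (w * t).natDegree)
    (hlt : 8 * m + 1 < 4 * (w * t).natDegree) :
    liou ((w * t) ^ 4 + C c * g) = -liou g := by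
  obtain ⟨L⟩ := nonempty_liftData 2 F (AlgebraicClosure F)
  have : CharP (AlgebraicClosure F) 2 :=
    charP_of_injective_algebraMap (algebraMap F (AlgebraicClosure F)).injective 2
  have h2F : (2 : F) = 0 := by exact_mod_cast CharP.cast_eq_zero F 2
  have h4F : (4 : F) = 0 := by linear_combination 2 * h2F
  have hwd : 2 * w.natDegree = 8 * m := by
    have := (monic_deriv hg hd (by push_cast; linear_combination 4 * (m : F) * h2F)).2
    rwa [hgw, hw.natDegree_pow] at this
  obtain ⟨W, hW, hWw, hWd⟩ := L.lift_monic hw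
  obtain ⟨T, hT, hTt, hTd⟩ := L.lift_monic ht
  obtain ⟨G, hG, hGg, hGd⟩ := L.lift_monic hg
  obtain ⟨γ, hγ⟩ := L.ρ_surj c
  obtain ⟨γ', hγ'⟩ := (L.unit_A γ (hγ ▸ hc)).exists_right_inv
  obtain ⟨H, hH⟩ : C (2 : WittVector 2 F) ∣ derivative G - W ^ 2 := by
    rw [C_dvd_iff_dvd_coeff]
    intro i
    have h1 : (derivative G - W ^ 2).map L.ρ = 0 := by
      rw [Polynomial.map_sub, ← derivative_map, Polynomial.map_pow, hGg, hWw, hgw, sub_self]
    have h2 := congrArg (fun P => coeff P i) h1
    simp only [coeff_map, coeff_zero] at h2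
    exact_mod_cast (L.ker_ρ _).1 h2
  have hW2 : (W ^ 2).Monic := hW.pow 2
  have hW2d : (W ^ 2).natDegree = 8 * m := by rw [hW.natDegree_pow, hWd, hwd]
  set Y := (H ^ 2 * T ^ 4) %ₘ W ^ 2 with hYdef
  have hYQ := modByMonic_add_div (H ^ 2 * T ^ 4) (W ^ 2)
  rw [← hYdef] at hYQ
  have hYd : Y.degree < (8 * m : ℕ) := by
    have := degree_modByMonic_lt (H ^ 2 * T ^ 4) hW2
    rwa [degree_eq_natDegree hW2.ne_zero, hW2d] at this
  have hYn : Y.natDegree ≤ 8 * m := natDegree_le_of_degree_le hYd.le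
  have hsm : (C (4 * γ') * Y).natDegree < G.natDegree :=
    (natDegree_C_mul_le _ _).trans_lt (by omega)
  have hG₁ : (G + C (4 * γ') * Y).Monic := hG.add_of_left (degree_lt_degree hsm)
  have hG₁d : (G + C (4 * γ') * Y).natDegree = 8 * m + 1 := by
    rw [natDegree_add_eq_left_of_natDegree_lt hsm, hGd, hd]
  have hG₁g : (G + C (4 * γ') * Y).map L.ρ = g := by
    rw [Polynomial.map_add, Polynomial.map_mul, map_C, map_mul, hGg, map_ofNat, h4F]
    simp
  have hS : (W * T).Monic := hW.mul hT
  have hSd : (W * T).natDegree = (w * t).natDegree := by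
    rw [hW.natDegree_mul hT, hw.natDegree_mul ht, hWd, hTd]
  generalize hD : (w * t).natDegree = D at hev hlt hSd
  have hsm' : (C γ * G).natDegree < ((W * T) ^ 4).natDegree := by
    rw [hS.natDegree_pow, hSd]
    exact (natDegree_C_mul_le _ _).trans_lt (by omega)
  have hF : ((W * T) ^ 4 + C γ * G).Monic := (hS.pow 4).add_of_left (degree_lt_degree hsm')
  have hFd : ((W * T) ^ 4 + C γ * G).natDegree = 4 * D := by
    rw [natDegree_add_eq_left_of_natDegree_lt hsm', hS.natDegree_pow, hSd]
  have hFf : ((W * T) ^ 4 + C γ * G).map L.ρ = (w * t) ^ 4 + C c * g := by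
    simp only [Polynomial.map_add, Polynomial.map_mul, Polynomial.map_pow, map_C, hWw, hTt, hGg,
      hγ]
  have hfsep : ((w * t) ^ 4 + C c * g).Separable := by
    have h0 : derivative ((w * t) ^ 4 + C c * g) = C c * w ^ 2 := by
      rw [derivative_add, derivative_pow, derivative_C_mul, hgw, Nat.cast_ofNat, h4F]
      simp
    have hcu : IsUnit (C c) := isUnit_C.2 hc.isUnit
    rw [Separable, h0, isCoprime_mul_unit_left_right hcu, add_comm,
      show (w * t) ^ 4 = w ^ 2 * (w ^ 2 * t ^ 4) by ring]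
    refine IsCoprime.add_mul_left_left ?_ _
    rw [isCoprime_mul_unit_left_left hcu, ← hgw]
    exact hsep
  obtain ⟨α, δ₁, e₁, u₁, f₁, d₁⟩ := L.stick hF (hFf ▸ hfsep) hFd
  obtain ⟨β, δ₂, e₂, u₂, f₂, d₂⟩ := L.stick hG₁ (hG₁g ▸ hsep) hG₁d
  rw [hFf] at f₁
  rw [hG₁g] at f₂
  obtain ⟨ν, hνμ, hν, hμ⟩ := L.quot_data (κ := 3) (by norm_num)
  set μ := Ideal.Quotient.mk (Ideal.span {((2 : ℕ) : WittVector 2 (AlgebraicClosure F)) ^ 3})
    with hμdef
  have hu : ∀ x, ν x ≠ 0 → IsUnit x := fun x hx => by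
    obtain ⟨x, rfl⟩ := Ideal.Quotient.mk_surjective x
    exact (L.unit_O x (by rwa [← hνμ])).map μ
  have hmm := L.map_map μ ν hνμ
  have t₁ := congrArg μ d₁
  have t₂ := congrArg μ d₂
  rw [map_prod, map_mul μ, map_pow μ, map_intCast μ] at t₁ t₂
  have ev : ∀ (H : (WittVector 2 F)[X]) (x : WittVector 2 (AlgebraicClosure F)),
      μ ((derivative (H.map L.ι)).eval x) = (derivative (H.map (μ.comp L.ι))).eval (μ x) := by
    intro H x
    rw [← Polynomial.map_map, derivative_map (H.map L.ι) μ, eval_map μ, eval₂_hom]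
  simp only [ev] at t₁ t₂
  have g₁ : ((W * T) ^ 4 + C γ * G).map (μ.comp L.ι) = ∏ i, (X - C (μ (α i))) := by
    have := congrArg (Polynomial.map μ) e₁
    simpa only [Polynomial.map_prod, Polynomial.map_sub, map_C, map_X, Polynomial.map_map]
      using this
  have g₂ : (G + C (4 * γ') * Y).map (μ.comp L.ι) = ∏ i, (X - C (μ (β i))) := by
    have := congrArg (Polynomial.map μ) e₂
    simpa only [Polynomial.map_prod, Polynomial.map_sub, map_C, map_X, Polynomial.map_map]
      using this
  have s₁ : sgn (4 * D) = 1 := by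
    rw [← zero_add (4 * D), sgn_add_four_mul]; rfl
  have s₂ : sgn (8 * m + 1) = 1 := by
    rw [show 8 * m + 1 = 1 + 4 * (2 * m) by ring, sgn_add_four_mul]; simp [sgn]
  rw [s₁, Int.cast_one, one_mul, g₁] at t₁
  rw [s₂, Int.cast_one, one_mul, g₂] at t₂
  generalize hθ : μ.comp L.ι = θ at g₁ g₂ hmm
  have hθγ : μ (L.ι γ) = θ γ := by rw [← hθ]; rfl
  have h8R : (8 : WittVector 2 (AlgebraicClosure F) ⧸
      Ideal.span {((2 : ℕ) : WittVector 2 (AlgebraicClosure F)) ^ 3}) = 0 := by
    exact_mod_cast hμ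
  have h8X := congrArg C h8R
  rw [map_ofNat, map_zero] at h8X
  have : Nontrivial (WittVector 2 (AlgebraicClosure F) ⧸
    Ideal.span {((2 : ℕ) : WittVector 2 (AlgebraicClosure F)) ^ 3}) := ν.domain_nontrivial
  obtain ⟨w₁, w₂⟩ := monic_deriv (hG.map θ) (k := 8 * m) (by rw [hG.natDegree_map, hGd, hd])
    (by push_cast; rw [h8R, zero_mul])
  have hν' : ∀ x, ν x = 0 → 2 ∣ x := fun x hx => by exact_mod_cast hν x hx
  have p₁ := prod_pert ν hν' hu h8R (fun i => μ (α i)) (C (θ γ) * derivative (G.map θ))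
    (((W * T) ^ 3 * derivative (W * T)).map θ)
    (by rw [t₁, map_pow, hνμ]; exact pow_ne_zero _ u₁)
    (by
      rw [← g₁, derivative_map, derivative_map, derivative_add, derivative_pow, derivative_C_mul]
      simp only [Polynomial.map_add, Polynomial.map_mul, Polynomial.map_pow, map_C, map_natCast,
        Polynomial.map_natCast]
      push_cast
      ring)
    (by
      rw [hmm, Polynomial.map_mul L.ρ, Polynomial.map_pow L.ρ, ← derivative_map,
        Polynomial.map_mul L.ρ, hWw, hTt]
      refine (degree_map_le).trans_lt ?_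
      have hs := hw.mul ht
      have h1 : (derivative (w * t)).degree < (D - 1 : ℕ) := by
        rw [degree_lt_iff_coeff_zero]
        intro i hi
        rw [coeff_derivative]
        rcases Nat.eq_or_lt_of_le (show D ≤ i + 1 by omega) with h | h
        · obtain ⟨k, hk⟩ := hev
          have : ((i : F) + 1) = 0 := by
            have h3 : ((i + 1 : ℕ) : F) = ((k + k : ℕ) : F) := by rw [← h, hk]
            push_cast at h3
            linear_combination h3 + (k : F) * h2F
          rw [this, mul_zero]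
        · rw [coeff_eq_zero_of_natDegree_lt (by omega), zero_mul]
      rw [degree_mul, degree_eq_natDegree (hs.pow 3).ne_zero, hs.natDegree_pow, hD,
        show 4 * D - 1 = 3 * D + (D - 1) by omega, Nat.cast_add]
      exact WithBot.add_lt_add_left (WithBot.coe_ne_bot) h1)
  have p₂ := prod_pert ν hν' hu h8R (fun i => μ (β i)) (derivative (G.map θ))
    ((C γ' * derivative Y).map θ)
    (by rw [t₂, map_pow, hνμ]; exact pow_ne_zero _ u₂)
    (by
      rw [← g₂, derivative_map, derivative_map, derivative_add, derivative_C_mul]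
      simp only [Polynomial.map_add, Polynomial.map_mul, map_C, map_mul, map_ofNat,
        Polynomial.map_ofNat]
      ring)
    (by
      refine degree_map_le.trans_lt (degree_map_le.trans_lt ?_)
      rw [Nat.add_sub_cancel]
      rw [← smul_eq_C_mul]
      exact ((degree_smul_le _ _).trans degree_derivative_le).trans_lt hYd)
  have p₃ := prod_eval_scal hlt.le (fun i => μ (α i)) (fun i => μ (β i)) (θ γ) _ w₁
    (by rw [w₂]; exact ⟨4 * m, by ring⟩)
    (by
      rw [← g₁, ← g₂]
      refine ⟨((derivative G - 4 * H) * T ^ 4 + 4 * (H ^ 2 * T ^ 4 /ₘ W ^ 2)).map θ, ?_⟩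
      have a1 := congrArg (Polynomial.map θ) hH
      have a2 := congrArg (Polynomial.map θ) hYQ
      have a3 := congrArg (fun x => C (θ x)) hγ'
      generalize H ^ 2 * T ^ 4 /ₘ W ^ 2 = Q at a2 ⊢
      simp only [Polynomial.map_add, Polynomial.map_mul, Polynomial.map_pow, Polynomial.map_sub,
        map_C, map_mul, map_ofNat, map_one, Polynomial.map_ofNat, ← derivative_map] at a1 a2 a3 ⊢
      have a4 : derivative (G.map θ) = W.map θ ^ 2 + 2 * H.map θ := by linear_combination a1
      rw [a4]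
      linear_combination (-4 * Y.map θ) * a3 - 4 * a2 - (H.map θ * Q.map θ) * h8X)
  simp only [eval_mul, eval_C, Finset.prod_mul_distrib, Finset.prod_const, card_univ,
    Fintype.card_fin] at p₁
  rw [t₁, p₃, ← p₂, t₂, w₂] at p₁
  have := L.sign_detect (κ := 3) (by norm_num) (fun _ => rfl) δ₁ (L.ι γ ^ (2 * D + 4 * m) * δ₂) u₁
    (by
      rw [← Ideal.mem_span_singleton, ← Ideal.Quotient.eq_zero_iff_mem, ← hμdef, map_sub, map_pow,
        map_pow, map_mul, map_pow, hθγ, p₁]
      ring)
    (eps_cases _ _) (eps_cases (8 * m + 1) g)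
    (by rw [f₁, sub_self]; exact dvd_zero _)
    (by rw [map_mul, map_pow, L.φι, f₂, mul_left_comm, sub_self]; exact dvd_zero _)
  rw [Even.neg_one_pow ⟨2 * D, by ring⟩, Odd.neg_one_pow ⟨4 * m, by ring⟩] at this
  linear_combination this

end Pool.Agent.MP_644200_nt
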