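import Mathlib
import Pool.Agent.MP_644200_nt.Flip

/- A long run of reducible polynomials just above a power of `X`. -/

set_option autoImplicit false

namespace Pool.Agent.MP_644200_nt

open Polynomial Finset Pool.Agent.MP_4fffd4_nt Pool.Agent.MP_c853c5_nt

variable {F : Type*} [Field F] [Fintype F] [CharP F 2]

theorem gap_four {m : ℕ} {s : F[X]} (hs : s.Monic) (hL : carl F (4 * m) ∣ s)
    (hev : Even s.natDegree) (hlt : 8 * m + 1 < 4 * s.natDegree) (y : F[X]) (hy : y ≠ 0)
    (hd : y.natDegree = 8 * m + 1) : ¬ Irreducible (s ^ 4 + y) := by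
  intro hirr
  have hc : y.leadingCoeff ≠ 0 := leadingCoeff_ne_zero.2 hy
  have hg : (y * C y.leadingCoeff⁻¹).Monic := monic_mul_leadingCoeff_inv hy
  have hgd : (y * C y.leadingCoeff⁻¹).natDegree = 8 * m + 1 := by
    rw [natDegree_mul_leadingCoeff_inv _ hy, hd]
  have hyg : y = C y.leadingCoeff * (y * C y.leadingCoeff⁻¹) := by
    rw [mul_left_comm, ← C_mul, mul_inv_cancel₀ hc, C_1, mul_one]
  generalize y * C y.leadingCoeff⁻¹ = g at hg hgd hyg
  generalize y.leadingCoeff = c at hc hyg
  have h2F : (2 : F) = 0 := by exact_mod_cast CharP.cast_eq_zero F 2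
  by_cases hgi : Irreducible g
  · obtain ⟨h1, h2⟩ := monic_deriv hg hgd (by push_cast; linear_combination (4 * m : F) * h2F)
    obtain ⟨a, w, haw⟩ := exists_sq_add g
    have h3 : derivative g = w ^ 2 := by rw [haw, derivative_odd]
    rw [h3] at h1 h2
    have hw : w.Monic := by
      have h4 : w.leadingCoeff ^ 2 = 1 := by rw [← leadingCoeff_pow]; exact h1
      have h5 : (w.leadingCoeff - 1) ^ 2 = 0 := by
        linear_combination h4 + (1 - w.leadingCoeff) * h2F
      exact sub_eq_zero.1 (pow_eq_zero_iff two_ne_zero |>.1 h5)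
    rw [natDegree_pow] at h2
    obtain ⟨t, rfl⟩ := (dvd_carl (j := 4 * m) w hw.ne_zero (by omega)).trans hL
    have := liou_flip_four hc hw (hw.of_mul_monic_left hs) hg
      (PerfectField.separable_of_irreducible hgi) hgd h3 hev hlt
    unfold liou at this
    rw [← hyg, UniqueFactorizationMonoid.card_factors_of_irreducible hgi,
      UniqueFactorizationMonoid.card_factors_of_irreducible hirr] at this
    norm_num at this
  · rw [hg.irreducible_iff_lt_natDegree_lt (fun h => by rw [h, natDegree_one] at hgd; omega)] at hgi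
    push Not at hgi
    obtain ⟨u, hu, hud, hug⟩ := hgi
    have h2 : (s ^ 4).natDegree = 4 * s.natDegree := hs.natDegree_pow 4
    have h3 : (s ^ 4 + y).Monic := (hs.pow 4).add_of_left (degree_lt_degree (by omega))
    have h4 : (s ^ 4 + y).natDegree = 4 * s.natDegree := by
      rw [natDegree_add_eq_left_of_natDegree_lt (by omega), h2]
    rw [h3.irreducible_iff_lt_natDegree_lt (fun h => by rw [h, natDegree_one] at h4; omega)] at hirr
    rw [mem_Ioc, hgd] at hud
    refine hirr u hu (mem_Ioc.2 ⟨hud.1, by omega⟩) (dvd_add ?_ (hyg ▸ hug.mul_left _))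
    exact ((dvd_carl u hu.ne_zero (by omega)).trans hL).trans (dvd_pow_self s (by omega))

theorem exists_centre (m : ℕ) (hm : 1 ≤ m) : ∃ (f : F[X]) (d : ℕ), f.Monic ∧ f.natDegree = d ∧
    16 * m + 8 ≤ d ∧
    (Fintype.card F - 1 : ℝ) * d = 4 * (Fintype.card F : ℝ) ^ (4 * m + 1) + 4 * Fintype.card F - 8 ∧
    f.coeff (8 * m + 1) = 0 ∧ (∀ i, d - 8 ≤ i → i < d → f.coeff i = 0) ∧
    ∀ y : F[X], y ≠ 0 → y.natDegree = 8 * m + 1 → ¬ Irreducible (f + y) := by
  have h2F : (2 : F) = 0 := by exact_mod_cast CharP.cast_eq_zero F 2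
  have h2X : (2 : F[X]) = 0 := by exact_mod_cast CharP.cast_eq_zero F[X] 2
  have hL := monic_carl (F := F) (4 * m)
  have hD := natDegree_carl_eq (F := F) (4 * m)
  have hD1 : 4 * m < (carl F (4 * m)).natDegree := by
    have := (natDegree_carl_bounds (F := F) (4 * m - 1)).1
    rwa [Nat.sub_add_cancel (by omega)] at this
  have hev : Even (carl F (4 * m)).natDegree := by
    rw [hD]
    refine Finset.even_sum _ fun i hi => Nat.even_pow.2 ⟨?_, by have := (mem_Icc.1 hi).1; omega⟩
    exact (FiniteField.even_card_iff_char_two.1 (ringChar.eq F 2)) |> Nat.even_iff.2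
  have hr : (X ^ ((carl F (4 * m)).natDegree + 2) %ₘ carl F (4 * m)).natDegree <
      (carl F (4 * m)).natDegree :=
    natDegree_modByMonic_lt _ hL fun h => by rw [h, natDegree_one] at hD1; omega
  have hdv : carl F (4 * m) ∣ X ^ ((carl F (4 * m)).natDegree + 2) -
      X ^ ((carl F (4 * m)).natDegree + 2) %ₘ carl F (4 * m) :=
    ⟨_, by rw [sub_eq_iff_eq_add', modByMonic_add_div]⟩
  have hgeo : (Fintype.card F - 1 : ℝ) * (carl F (4 * m)).natDegree =
      (Fintype.card F : ℝ) ^ (4 * m + 1) - Fintype.card F := by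
    rw [hD]
    push_cast
    generalize 4 * m = k
    induction k with
    | zero => simp
    | succ k IH => rw [Finset.sum_Icc_succ_top (by omega), mul_add, IH]; ring
  generalize X ^ ((carl F (4 * m)).natDegree + 2) %ₘ carl F (4 * m) = r at hr hdv
  generalize (carl F (4 * m)).natDegree = D at hD1 hev hr hdv hgeo
  have hlt : r.degree < (X ^ (D + 2) : F[X]).degree :=
    degree_lt_degree (by rw [natDegree_X_pow]; omega)
  have hs : (X ^ (D + 2) - r).Monic := (monic_X_pow _).sub_of_left hlt
  have hsd : (X ^ (D + 2) - r).natDegree = D + 2 := by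
    rw [natDegree_sub_eq_left_of_natDegree_lt (by rw [natDegree_X_pow]; omega), natDegree_X_pow]
  refine ⟨(X ^ (D + 2) - r) ^ 4, 4 * (D + 2), hs.pow 4, by rw [hs.natDegree_pow, hsd], by omega,
    by push_cast; linear_combination 4 * hgeo, ?_, fun i h1 h2 => ?_,
    gap_four hs hdv (by rw [hsd]; exact hev.add even_two) (by omega)⟩
  · have h1 : derivative ((X ^ (D + 2) - r) ^ 4) = 0 := by
      rw [derivative_pow]
      simp only [Nat.cast_ofNat, map_ofNat]
      linear_combination (2 * (X ^ (D + 2) - r) ^ (4 - 1) * derivative (X ^ (D + 2) - r)) * h2X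
    have h2 := congrArg (coeff · (8 * m)) h1
    simp only [coeff_derivative, coeff_zero] at h2
    push_cast at h2
    linear_combination h2 - (4 * m * ((X ^ (D + 2) - r) ^ 4).coeff (8 * m + 1)) * h2F
  · have h3 : (X ^ (D + 2) - r) ^ 4 = X ^ (4 * (D + 2)) + r ^ 4 := by
      rw [mul_comm, pow_mul]
      generalize (X ^ (D + 2) : F[X]) = a
      linear_combination (-2 * a ^ 3 * r + 3 * a ^ 2 * r ^ 2 - 2 * a * r ^ 3) * h2X
    rw [h3, coeff_add, coeff_X_pow, if_neg h2.ne, zero_add]
    exact coeff_eq_zero_of_natDegree_lt (natDegree_pow_le.trans_lt (by omega))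

end Pool.Agent.MP_644200_nt
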