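import Mathlib
import Pool.Agent.MP_644200_nt.Defs
import Pool.Agent.MP_c853c5_nt.SConv

/- Digits, positions and the number of monic irreducible polynomials below a position. -/

set_option autoImplicit false

namespace Pool.Agent.MP_644200_nt

open Polynomial Finset Pool.Agent.MP_4fffd4_nt Pool.Agent.MP_c853c5_nt

theorem sum_dig_lt {q : ℕ} {c : ℕ → ℕ} (hc : ∀ i, c i < q) (k : ℕ) :
    ∑ j ∈ range k, c j * q ^ j < q ^ k := by
  induction k with
  | zero => simp
  | succ k IH =>
    rw [sum_range_succ, pow_succ]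
    have := Nat.mul_le_mul_right (q ^ k) (Nat.succ_le_of_lt (hc k))
    nlinarith

theorem sum_dig_div {q : ℕ} {c : ℕ → ℕ} (hc : ∀ i, c i < q) {i k : ℕ} (h : i < k) :
    (∑ j ∈ range k, c j * q ^ j) / q ^ i % q = c i := by
  obtain ⟨r, rfl⟩ : ∃ r, k = i + (1 + r) := ⟨k - i - 1, by omega⟩
  have hq : 0 < q := (Nat.zero_le _).trans_lt (hc 0)
  have e : ∑ j ∈ range (1 + r), c (i + j) * q ^ (i + j) =
      q ^ i * (c i + q * ∑ j ∈ range r, c (i + (1 + j)) * q ^ j) := by
    rw [sum_range_add, mul_add, mul_sum, mul_sum, sum_range_one]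
    congr 1
    · simp [mul_comm]
    · exact sum_congr rfl fun j _ => by ring
  rw [sum_range_add, e, Nat.add_mul_div_left _ _ (pow_pos hq i),
    Nat.div_eq_of_lt (sum_dig_lt hc i), zero_add, Nat.add_mul_mod_self_left,
    Nat.mod_eq_of_lt (hc i)]

variable {F : Type*} [Field F] [Fintype F] (dig : F ≃ Fin (Fintype.card F))

/-- The lower `k` coefficients read as a number. -/
def val (f : F[X]) (k : ℕ) : ℕ :=
  ∑ i ∈ range k, (dig (f.coeff i) : ℕ) * Fintype.card F ^ i

variable (F) in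
/-- The first position in degree `k`. -/
def base (k : ℕ) : ℕ := 1 + ∑ i ∈ range k, Fintype.card F ^ i

theorem base_succ (k : ℕ) : base F (k + 1) = base F k + Fintype.card F ^ k := by
  rw [base, base, sum_range_succ, add_assoc]

theorem base_mono : StrictMono (base F) := strictMono_nat_of_lt_succ fun k => by
  rw [base_succ]
  exact Nat.lt_add_of_pos_right (pow_pos Fintype.card_pos k)

theorem pos_eq (f : F[X]) : pos dig f = base F f.natDegree + val dig f f.natDegree := by
  simp only [pos, base, val, add_mul, one_mul, sum_add_distrib]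
  ring

theorem val_lt (f : F[X]) (k : ℕ) : val dig f k < Fintype.card F ^ k :=
  sum_dig_lt (fun i => (dig (f.coeff i)).2) k

theorem val_div (f : F[X]) {i k : ℕ} (h : i < k) :
    val dig f k / Fintype.card F ^ i % Fintype.card F = dig (f.coeff i) :=
  sum_dig_div (fun i => (dig (f.coeff i)).2) h

theorem pos_lt (f : F[X]) : pos dig f < base F (f.natDegree + 1) := by
  rw [pos_eq, base_succ]
  exact Nat.add_lt_add_left (val_lt dig f _) _

theorem natDegree_of_pos {f : F[X]} {k : ℕ} (h1 : base F k ≤ pos dig f)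
    (h2 : pos dig f < base F (k + 1)) : f.natDegree = k := by
  have a := base_mono.lt_iff_lt.1 (h1.trans_lt (pos_lt dig f))
  have b := base_mono.lt_iff_lt.1 (((pos_eq dig f).ge.trans' (Nat.le_add_right _ _)).trans_lt h2)
  omega

theorem coeff_eq_of_div {f g : F[X]} (hf : f.Monic) (hg : g.Monic) {d h : ℕ}
    (hfd : f.natDegree = d) (hgd : g.natDegree = d)
    (e : val dig f d / Fintype.card F ^ h = val dig g d / Fintype.card F ^ h) {i : ℕ}
    (hi : h ≤ i) : f.coeff i = g.coeff i := by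
  rcases lt_trichotomy i d with hid | hid | hid
  · apply dig.injective
    apply Fin.ext
    obtain ⟨r, rfl⟩ := Nat.exists_eq_add_of_le hi
    rw [← val_div dig f hid, ← val_div dig g hid, pow_add, ← Nat.div_div_eq_div_mul,
      ← Nat.div_div_eq_div_mul, e]
  · rw [hid, ← hfd, hf.coeff_natDegree, hfd, ← hgd, hg.coeff_natDegree]
  · rw [coeff_eq_zero_of_natDegree_lt (hfd ▸ hid), coeff_eq_zero_of_natDegree_lt (hgd ▸ hid)]

theorem pos_inj {f g : F[X]} (hf : f.Monic) (hg : g.Monic) (h : pos dig f = pos dig g) :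
    f = g := by
  have hd : f.natDegree = g.natDegree :=
    natDegree_of_pos dig (h ▸ (pos_eq dig g).ge.trans' (Nat.le_add_right _ _)) (h ▸ pos_lt dig g)
  rw [pos_eq, pos_eq, hd, add_right_inj] at h
  ext i
  exact coeff_eq_of_div dig hf hg hd rfl (h := 0) (by rw [h]) (Nat.zero_le i)

/-- The positions of the monic irreducible polynomials. -/
def S (m : ℕ) : Prop := ∃ f : F[X], f.Monic ∧ Irreducible f ∧ pos dig f = m

theorem infinite_S : (setOf (S dig)).Infinite := by
  refine Set.infinite_of_forall_exists_gt fun a => ?_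
  have h := card_irrF (F := F) (n := a + 4) (by omega)
  have hq := card_pos' (F := F)
  have : 0 < (irrF F (a + 4)).card := by
    exact_mod_cast (show (0 : ℝ) < _ by positivity).trans_le h
  obtain ⟨f, hf⟩ := card_pos.1 this
  obtain ⟨h1, h2, h3⟩ := mem_irrF.1 hf
  refine ⟨_, ⟨f, h1, h3, rfl⟩, ?_⟩
  have := base_mono (F := F).id_le (a + 4)
  rw [pos_eq, h2]
  simp only [id] at this
  omega

theorem not_S (h0 : (dig 0 : ℕ) = 0) {f₀ : F[X]} (hf₀ : f₀.Monic) {d h : ℕ}
    (hd : f₀.natDegree = d) (hh : h < d) (hc : f₀.coeff h = 0)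
    (H : ∀ y : F[X], y ≠ 0 → y.natDegree = h → ¬ Irreducible (f₀ + y)) {m : ℕ}
    (h1 : base F d + Fintype.card F ^ (h + 1) * (val dig f₀ d / Fintype.card F ^ (h + 1)) +
      Fintype.card F ^ h ≤ m)
    (h2 : m < base F d + Fintype.card F ^ (h + 1) * (val dig f₀ d / Fintype.card F ^ (h + 1)) +
      Fintype.card F ^ (h + 1)) : ¬ S dig m := by
  rintro ⟨f, hf, hi, rfl⟩
  have hq : 0 < Fintype.card F := Fintype.card_pos
  generalize hM : val dig f₀ d / Fintype.card F ^ (h + 1) = M at h1 h2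
  have hMlt : Fintype.card F ^ (h + 1) * (M + 1) ≤ Fintype.card F ^ d := by
    obtain ⟨r, rfl⟩ : ∃ r, d = h + 1 + r := ⟨d - h - 1, by omega⟩
    rw [pow_add _ (h + 1) r]
    refine Nat.mul_le_mul_left _ (Nat.succ_le_of_lt ?_)
    rw [← hM, Nat.div_lt_iff_lt_mul (pow_pos hq _), mul_comm, ← pow_add]
    exact val_lt dig f₀ _
  have hfd : f.natDegree = d := natDegree_of_pos dig (by omega) (by
    rw [base_succ]; rw [mul_add] at hMlt; omega)
  rw [pos_eq, hfd] at h1 h2
  have e1 : val dig f d / Fintype.card F ^ (h + 1) = M := by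
    rw [Nat.div_eq_iff (pow_pos hq _), mul_comm]
    omega
  have e2 : f.coeff h ≠ 0 := fun h3 => by
    have h4 := val_div dig f hh
    rw [h3, h0] at h4
    have h5 := Nat.mod_add_div (val dig f d / Fintype.card F ^ h) (Fintype.card F)
    rw [h4, zero_add, Nat.div_div_eq_div_mul, ← pow_succ, e1] at h5
    have h6 := Nat.lt_mul_div_succ (val dig f d) (pow_pos hq h)
    rw [← h5, mul_add, ← mul_assoc, ← pow_succ] at h6
    omega
  have e3 : (f - f₀).coeff h ≠ 0 := by rwa [coeff_sub, hc, sub_zero]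
  refine H (f - f₀) (fun h3 => e3 (by rw [h3, coeff_zero]))
    (le_antisymm (natDegree_le_iff_coeff_eq_zero.2 fun i hi => ?_) (le_natDegree_of_ne_zero e3))
    (by rwa [add_sub_cancel])
  rw [coeff_sub, coeff_eq_of_div dig hf hf₀ hfd hd (e1.trans hM.symm) hi, sub_self]

open SConv in
theorem card_irrF_ge {n : ℕ} (hn : 1 ≤ n) :
    (Fintype.card F : ℝ) ^ n - 2 * (Fintype.card F : ℝ) ^ (n / 2) ≤ n * (irrF F n).card := by
  classical
  have h0 : ∑ e ∈ monF F n, vm e = (Fintype.card F : ℝ) ^ n := by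
    obtain ⟨m, rfl⟩ : ∃ m, n = m + 1 := ⟨n - 1, by omega⟩
    exact sum_vm_succ m
  have h1 : ∀ g ∈ monF F n, vm g ≤ (if Irreducible g then (n : ℝ) else 0) +
      ∑ d ∈ range (n / 2 + 1), ∑ P ∈ irrF F d, if g = P ^ (n / d) then (d : ℝ) else 0 := by
    intro g hg
    have a1 : (0 : ℝ) ≤ if Irreducible g then (n : ℝ) else 0 := by positivity
    have a2 : ∀ d, ∀ P ∈ irrF F d, (0 : ℝ) ≤ if g = P ^ (n / d) then (d : ℝ) else 0 :=
      fun d P _ => by positivity
    have a3 : ∀ d ∈ range (n / 2 + 1),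
        (0 : ℝ) ≤ ∑ P ∈ irrF F d, if g = P ^ (n / d) then (d : ℝ) else 0 :=
      fun d _ => sum_nonneg (a2 d)
    rcases vm_cases g with h | ⟨P, b1, b2, a, ha, e, h⟩
    · rw [h]; exact add_nonneg a1 (sum_nonneg a3)
    have b3 := (mem_monF.1 hg).2
    rw [e, b1.natDegree_pow] at b3
    rcases Nat.eq_or_lt_of_le (Nat.succ_le_of_lt ha) with h2 | h2
    · rw [← h2] at e b3
      simp only [Nat.succ_eq_add_one, zero_add, pow_one, one_mul] at e b3
      rw [h, b3, if_pos (e ▸ b2)]
      exact le_add_of_nonneg_right (sum_nonneg a3)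
    · have b4 := b2.natDegree_pos
      have b5 : P.natDegree ∈ range (n / 2 + 1) := by
        rw [mem_range, Nat.lt_succ_iff, Nat.le_div_iff_mul_le two_pos, ← b3, mul_comm]
        exact Nat.mul_le_mul_right _ h2
      refine le_add_of_nonneg_of_le a1 (le_trans ?_ (single_le_sum a3 b5))
      refine le_trans ?_ (single_le_sum (a2 _) (mem_irrF.2 ⟨b1, rfl, b2⟩))
      rw [h, if_pos (by rw [← b3, Nat.mul_div_cancel _ b4, e])]
  have h2 := sum_le_sum h1
  rw [h0, sum_add_distrib, ← sum_filter, sum_const, nsmul_eq_mul, sum_comm] at h2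
  have h3 : ∑ d ∈ range (n / 2 + 1), ∑ g ∈ monF F n, ∑ P ∈ irrF F d,
      (if g = P ^ (n / d) then (d : ℝ) else 0) ≤ 2 * (Fintype.card F : ℝ) ^ (n / 2) := by
    refine (sum_le_sum fun d _ => ?_).trans (geom _)
    rw [sum_comm]
    refine (sum_le_card_nsmul _ _ (d : ℝ) fun P _ => ?_).trans ?_
    · rw [sum_ite_eq']
      split_ifs
      · exact le_rfl
      · positivity
    · rw [nsmul_eq_mul, mul_comm]
      exact card_irrF_le d
  have h5 : ((monF F n).filter Irreducible).card = (irrF F n).card := by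
    unfold irrF; congr
  rw [h5] at h2
  linarith

open Classical in
theorem sum_le_count {d a : ℕ} (h : base F d ≤ a) :
    ∑ k ∈ range d, (irrF F k).card ≤ Nat.count (S dig) a := by
  rw [Nat.count_eq_card_filter_range, ← card_biUnion fun i _ j _ hij =>
    disjoint_left.2 fun f h1 h2 => hij ((mem_irrF.1 h1).2.1.symm.trans (mem_irrF.1 h2).2.1)]
  refine card_le_card_of_injOn (pos dig) (fun f hf => ?_) fun f hf g hg e => ?_
  · obtain ⟨k, hk, hf⟩ := mem_biUnion.1 (mem_coe.1 hf)
    obtain ⟨h1, h2, h3⟩ := mem_irrF.1 hf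
    refine mem_coe.2 (mem_filter.2 ⟨mem_range.2 ?_, f, h1, h3, rfl⟩)
    exact (pos_lt dig f).trans_le ((base_mono.monotone (by have := mem_range.1 hk; omega)).trans h)
  · obtain ⟨k, -, hf⟩ := mem_biUnion.1 (mem_coe.1 hf)
    obtain ⟨l, -, hg⟩ := mem_biUnion.1 (mem_coe.1 hg)
    exact pos_inj dig (mem_irrF.1 hf).1 (mem_irrF.1 hg).1 e

end Pool.Agent.MP_644200_nt
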