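import Mathlib
import Pool.Agent.MP_644200_nt.Gap
import Pool.Agent.MP_644200_nt.Pos
import Pool.Agent.MP_644200_nt.Ana

/- The violation of the inequality just before the long run. -/

set_option autoImplicit false

namespace Pool.Agent.MP_644200_nt

open Polynomial Finset Pool.Agent.MP_4fffd4_nt Pool.Agent.MP_c853c5_nt Filter

variable {F : Type*} [Field F] [Fintype F] (dig : F ≃ Fin (Fintype.card F))

theorem val_lt_of_zero (h0 : (dig 0 : ℕ) = 0) {f : F[X]} {e k : ℕ}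
    (h : ∀ i, e ≤ i → i < e + k → f.coeff i = 0) : val dig f (e + k) < Fintype.card F ^ e := by
  have : val dig f (e + k) = val dig f e := by
    rw [val, sum_range_add, sum_eq_zero (s := range k), add_zero, val]
    intro i hi
    rw [h _ (by omega) (by have := mem_range.1 hi; omega), h0, zero_mul]
  rw [this]
  exact val_lt dig f e

theorem base_le (hq : 8 ≤ Fintype.card F) (k : ℕ) : 7 * base F k ≤ Fintype.card F ^ k + 6 := by
  induction k with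
  | zero => simp [base]
  | succ k IH =>
    rw [base_succ, pow_succ]
    have := Nat.mul_le_mul_left (Fintype.card F ^ k) hq
    omega

theorem sq_le_pow {q e : ℕ} (hq : 8 ≤ q) (he : 16 ≤ e) : (e + 8) ^ 2 ≤ q ^ e := by
  have h1 : e ≤ 2 ^ e := Nat.lt_two_pow_self.le
  calc (e + 8) ^ 2 ≤ (2 * e) ^ 2 := Nat.pow_le_pow_left (by omega) 2
    _ = 4 * e ^ 2 := by ring
    _ ≤ e * e ^ 2 := Nat.mul_le_mul_right _ (by omega)
    _ = e ^ 3 := by ring
    _ ≤ (2 ^ e) ^ 3 := Nat.pow_le_pow_left h1 3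
    _ = 8 ^ e := by rw [← pow_mul, mul_comm, pow_mul]; norm_num
    _ ≤ q ^ e := Nat.pow_le_pow_left hq e

open Classical in
theorem count_ge {e a : ℕ} (he : 8 ≤ e) (h : base F (e + 8) ≤ a) :
    (Fintype.card F : ℝ) ^ (e + 5) + (Fintype.card F : ℝ) ^ (e + 6) +
      (Fintype.card F : ℝ) ^ (e + 7) - 6 * (Fintype.card F : ℝ) ^ e ≤
      Nat.count (S dig) a * (e + 8 : ℕ) := by
  have h1 := sum_le_count dig h
  rw [sum_range_succ, sum_range_succ, sum_range_succ] at h1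
  have hq : (1 : ℝ) ≤ Fintype.card F := by exact_mod_cast Fintype.card_pos
  have key : ∀ j, 1 ≤ j → j ≤ 8 → (Fintype.card F : ℝ) ^ (e + j) - 2 * (Fintype.card F : ℝ) ^ e ≤
      (irrF F (e + j)).card * (e + 8 : ℕ) := fun j h1 h2 => by
    have h3 := card_irrF_ge (F := F) (n := e + j) (by omega)
    have h4 : (Fintype.card F : ℝ) ^ ((e + j) / 2) ≤ (Fintype.card F : ℝ) ^ e :=
      pow_le_pow_right₀ hq (by omega)
    have h5 : ((e + j : ℕ) : ℝ) * (irrF F (e + j)).card ≤ (irrF F (e + j)).card * (e + 8 : ℕ) := by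
      rw [mul_comm]
      gcongr
    linarith
  have h2 : ((irrF F (e + 5)).card + (irrF F (e + 6)).card + (irrF F (e + 7)).card : ℝ) ≤
      Nat.count (S dig) a := by exact_mod_cast le_trans (by omega) h1
  have h3 := mul_le_mul_of_nonneg_right h2 (Nat.cast_nonneg (α := ℝ) (e + 8))
  linarith [key 5 (by omega) (by omega), key 6 (by omega) (by omega), key 7 (by omega) (by omega)]

theorem arith {x₀ x₁ x₂ x₃ x₄ x₅ x₆ x₇ x₈ B B' M Q N d : ℝ} (s0 : 8 * x₀ ≤ x₁) (s1 : 8 * x₁ ≤ x₂)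
    (s2 : 8 * x₂ ≤ x₃) (s3 : 8 * x₃ ≤ x₄) (s4 : 8 * x₄ ≤ x₅) (s5 : 8 * x₅ ≤ x₆)
    (s6 : 8 * x₆ ≤ x₇) (s7 : 8 * x₇ ≤ x₈) (hB : 7 * B ≤ x₅ + 6) (hB' : B' = B + x₅ + x₆ + x₇)
    (hM : M ≤ x₀) (hQ : Q ≤ x₀) (hx : d ^ 2 ≤ x₀) (hx' : 1 ≤ x₀) (hd : 0 < d)
    (hN : x₅ + x₆ + x₇ - 6 * x₀ ≤ N * d) :
    1000 * d ≤ N ∧ B' + M + Q ≤ x₈ ∧ 998 / 1000 * (B' + M + Q) ≤ N * d :=
  ⟨le_of_mul_le_mul_right (by linarith) hd, by linarith, by linarith⟩

theorem arith' {q Z d : ℝ} (hq : 8 ≤ q) (hZ : 4096 * q ≤ Z) (h : (q - 1) * d = 4 * Z + 4 * q - 8) :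
    (q - 1) ^ 3 * d ^ 2 ≤ 1601 / 100 * ((q - 1) * Z ^ 2) := by
  rw [show (q - 1) ^ 3 * d ^ 2 = (q - 1) * ((q - 1) * d) ^ 2 by ring, h, mul_left_comm]
  refine mul_le_mul_of_nonneg_left ?_ (by linarith)
  nlinarith

theorem main_step [CharP F 2] (hq : 8 ≤ Fintype.card F) (h0 : (dig 0 : ℕ) = 0) (m : ℕ)
    (hm : 1 ≤ m) : ∃ n : ℕ, m ≤ n ∧ 1 + Real.log n / (4 * (n : ℝ) ^ 2) <
      (pr dig (n + 1) : ℝ) ^ (1 / ((n : ℝ) + 1)) / (pr dig n : ℝ) ^ (1 / (n : ℝ)) := by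
  classical
  obtain ⟨f, d, hf, hd, hmd, hdq, hc, hz, H⟩ := exists_centre (F := F) m hm
  obtain ⟨e, rfl⟩ : ∃ e, d = e + 8 := ⟨d - 8, by omega⟩
  have hnS := fun a => not_S dig h0 hf hd (h := 8 * m + 1) (by omega) hc H (m := a)
  have hv := val_lt_of_zero dig h0 (f := f) (e := e) (k := 8) fun i h1 h2 => hz i (by omega) h2
  have hM := Nat.mul_div_le (val dig f (e + 8)) (Fintype.card F ^ (8 * m + 1 + 1))
  generalize Fintype.card F ^ (8 * m + 1 + 1) * (val dig f (e + 8) /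
    Fintype.card F ^ (8 * m + 1 + 1)) = M at hnS hM
  have hB := base_le (F := F) hq (e + 5)
  have hB' : base F (e + 8) = base F (e + 5) + Fintype.card F ^ (e + 5) +
      Fintype.card F ^ (e + 6) + Fintype.card F ^ (e + 7) := by
    rw [base_succ, base_succ, base_succ]
  have hN := count_ge dig (e := e) (a := base F (e + 8) + M + Fintype.card F ^ (8 * m + 1))
    (by omega) (by omega)
  have hNa := Nat.count_le (p := S dig) (n := base F (e + 8) + M + Fintype.card F ^ (8 * m + 1))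
  have hp := fun k => Nat.nth_lt_of_lt_count (p := S dig) (k := k)
    (n := base F (e + 8) + M + Fintype.card F ^ (8 * m + 1))
  have hp' := Nat.le_nth_count (infinite_S dig) (base F (e + 8) + M + Fintype.card F ^ (8 * m + 1))
  generalize Nat.count (S dig) (base F (e + 8) + M + Fintype.card F ^ (8 * m + 1)) = N at *
  have hp'' : base F (e + 8) + M + Fintype.card F ^ (8 * m + 1 + 1) ≤ Nat.nth (S dig) N :=
    not_lt.1 fun h => hnS _ hp' h (Nat.nth_mem_of_infinite (infinite_S dig) N)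
  have hh : Fintype.card F ^ (8 * m + 1 + 1) ≤ Fintype.card F ^ e :=
    Nat.pow_le_pow_right (by omega) (by omega)
  have hX := sq_le_pow hq (show 16 ≤ e by omega)
  have hq' : (8 : ℝ) ≤ Fintype.card F := by exact_mod_cast hq
  have hB₁ : (7 * base F (e + 5) : ℝ) ≤ (Fintype.card F : ℝ) ^ (e + 5) + 6 := by exact_mod_cast hB
  have hB₂ : (base F (e + 8) : ℝ) = base F (e + 5) + (Fintype.card F : ℝ) ^ (e + 5) +
      (Fintype.card F : ℝ) ^ (e + 6) + (Fintype.card F : ℝ) ^ (e + 7) := by exact_mod_cast hB'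
  have hM₁ : (M : ℝ) ≤ (Fintype.card F : ℝ) ^ e := by exact_mod_cast hM.trans hv.le
  have hh₁ : (Fintype.card F : ℝ) ^ (8 * m + 1 + 1) ≤ (Fintype.card F : ℝ) ^ e := by
    exact_mod_cast hh
  have hX₁ : ((e + 8 : ℕ) : ℝ) ^ 2 ≤ (Fintype.card F : ℝ) ^ e := by exact_mod_cast hX
  have hNa₁ : (N : ℝ) ≤ base F (e + 8) + M + (Fintype.card F : ℝ) ^ (8 * m + 1) := by
    exact_mod_cast hNa
  have hp₂ : (base F (e + 8) + M + (Fintype.card F : ℝ) ^ (8 * m + 1 + 1) : ℝ) ≤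
      pr dig (N + 1) := by exact_mod_cast hp''
  have hd₁ : (24 : ℝ) ≤ (e + 8 : ℕ) := by exact_mod_cast (by omega : 24 ≤ e + 8)
  have hm₁ : (m : ℝ) ≤ (e + 8 : ℕ) := by exact_mod_cast (by omega : m ≤ e + 8)
  have hstep : ∀ k, 8 * (Fintype.card F : ℝ) ^ k ≤ (Fintype.card F : ℝ) ^ (k + 1) := fun k => by
    rw [pow_succ, mul_comm]
    gcongr
  obtain ⟨a₁, a₂, a₃⟩ := arith (hstep e) (hstep (e + 1)) (hstep (e + 2)) (hstep (e + 3))
    (hstep (e + 4)) (hstep (e + 5)) (hstep (e + 6)) (hstep (e + 7)) hB₁ hB₂ hM₁ hh₁ hX₁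
    (one_le_pow₀ (le_trans (by norm_num) hq')) (lt_of_lt_of_le (by norm_num) hd₁) hN
  have hN₁ : (1000 : ℝ) ≤ N := by linarith only [a₁, hd₁]
  have hN₂ : 0 < N := by exact_mod_cast (show (0 : ℝ) < N by linarith only [hN₁])
  have hp₁ : (pr dig N : ℝ) ≤ base F (e + 8) + M + (Fintype.card F : ℝ) ^ (8 * m + 1) := by
    exact_mod_cast (hp (N - 1) (by omega)).le
  have hp₀ : (1 : ℝ) ≤ pr dig N := by
    obtain ⟨g, -, -, hg⟩ := Nat.nth_mem_of_infinite (infinite_S dig) (N - 1)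
    exact_mod_cast (show 1 ≤ Nat.nth (S dig) (N - 1) from hg ▸ Nat.le_add_right _ _)
  have hQ : (0 : ℝ) < (Fintype.card F : ℝ) ^ (8 * m + 1) := by positivity
  have hZ : 4096 * (Fintype.card F : ℝ) ≤ (Fintype.card F : ℝ) ^ (4 * m + 1) := by
    rw [pow_succ]
    gcongr
    calc (4096 : ℝ) = 8 ^ 4 := by norm_num
      _ ≤ (Fintype.card F : ℝ) ^ 4 := by gcongr
      _ ≤ _ := pow_le_pow_right₀ (le_trans (by norm_num) hq') (by omega)
  refine ⟨N, by exact_mod_cast (show (m : ℝ) ≤ N by linarith only [a₁, hm₁, hd₁]), final_ineq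
    (g := (Fintype.card F : ℝ) ^ (8 * m + 1 + 1) - (Fintype.card F : ℝ) ^ (8 * m + 1))
    (d := e + 8) hq' (by omega) hp₀ hp₁ (by linarith only [hp₂]) (by linarith only [a₂]) hNa₁ hN₁
    (by linarith only [hQ, hstep (8 * m + 1)]) (by linarith only [a₃])
    ((arith' hq' hZ hdq).trans_eq (by ring))⟩

theorem main [CharP F 2] (hq : 8 ≤ Fintype.card F) (h0 : (dig 0 : ℕ) = 0) :
    ∃ᶠ n : ℕ in atTop, 1 + Real.log n / (4 * (n : ℝ) ^ 2) <
      (pr dig (n + 1) : ℝ) ^ (1 / ((n : ℝ) + 1)) / (pr dig n : ℝ) ^ (1 / (n : ℝ)) := by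
  refine frequently_atTop.2 fun m => ?_
  obtain ⟨n, h1, h2⟩ := main_step dig hq h0 (m + 1) (by omega)
  exact ⟨n, by omega, h2⟩

end Pool.Agent.MP_644200_nt
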