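import Mathlib
import Pool.Agent.Mg.F43e117.Gad05b4
import Pool.Agent.Mg.F43e117.G856353

/- Twin primes of `F[X]`, characteristic two, uniformly in the shift. -/

set_option autoImplicit false
set_option linter.unusedSectionVars false

namespace Pool.Agent.MP_644200_nt.RA

open Polynomial Finset Filter Pool.Agent.MP_4fffd4_nt Pool.Agent.MP_c853c5_nt
  Pool.Agent.MP_43e117_nt
open scoped BigOperators

variable {F : Type*} [Field F] [Fintype F]

/-- The weight of the prime factors of the shift. -/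
noncomputable def wt (h : F[X]) : ℝ := ∑ P ∈ pf h, (2 / 3 : ℝ) ^ P.natDegree

theorem wt_nonneg (h : F[X]) : 0 ≤ wt h := sum_nonneg fun _ _ => by positivity

theorem inv_le_pow (p : ℕ) : 1 / qq F p ≤ (2 / 3 : ℝ) ^ p := by
  refine le_trans ?_ (TSing.pow_div_le (F := F) p)
  exact le_mul_of_one_le_left (TMass.inv_nonneg' p) (one_le_pow₀ (by norm_num))

section Mass

open TMass

theorem sum_rest' {h : F[X]} (hh : h ≠ 0) {y S D n : ℕ} (h2 : y / 2 ^ S ≤ 15)
    (hn : n - y ≤ D * y) : ∑ P ∈ rest h y S n, 1 / qq F P.natDegree ≤ 15 + wt h + D := by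
  classical
  have h1 := TMass.sum_rest (F := F) one_ne_zero h2 hn
  have h3 : rest h y S n ⊆ rest 1 y S n ∪ pf h := fun P hP => by
    obtain ⟨a, b⟩ := mem_filter.1 hP
    obtain ⟨a1, a2, -⟩ := mem_irrLE.1 a
    by_cases hd : P ∣ h
    · exact mem_union_right _ ((mem_pf hh).2 ⟨a1, a2, hd⟩)
    · refine mem_union_left _ (mem_filter.2 ⟨a, fun ⟨s, hs, c⟩ => b ⟨s, hs, ?_⟩⟩)
      obtain ⟨c1, c2, c3, c4, -⟩ := mem_blk.1 c
      exact mem_blk.2 ⟨c1, c2, c3, c4, hd⟩
  have h4 := sum_le_sum_of_subset_of_nonneg h3 (f := fun P => 1 / qq F P.natDegree)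
    fun P _ _ => inv_nonneg' _
  have h5 := sum_union_inter (s₁ := rest 1 y S n) (s₂ := pf h)
    (f := fun P : F[X] => 1 / qq F P.natDegree)
  have h6 : 0 ≤ ∑ P ∈ rest 1 y S n ∩ pf h, 1 / qq F P.natDegree :=
    sum_nonneg fun P _ => inv_nonneg' _
  have h7 : ∑ P ∈ pf h, 1 / qq F P.natDegree ≤ wt h := sum_le_sum fun P _ => inv_le_pow _
  rw [natDegree_one, Nat.cast_zero] at h1
  linarith

theorem sum_cm' {h : F[X]} (hh : h ≠ 0) {y S D m n : ℕ} (h1 : 8 ≤ y / 2 ^ S)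
    (h2 : y / 2 ^ S ≤ 15) (hm : m ≤ n) (hn : n ≤ D * y) (σ : Finset ℕ) :
    (m : ℝ) * ∑ e ∈ monF F m, cm (ww h y S fun s => if s ∈ σ then 3 else 0) e ≤
      5 * qq F m * Real.exp (2 * (3 * σ.card + (15 + wt h + D))) := by
  classical
  set c : ℕ → ℝ := fun s => if s ∈ σ then 3 else 0 with hc
  have c0 : ∀ s, 0 ≤ c s := fun s => by simp only [hc]; split_ifs <;> norm_num
  have c3 : ∀ s, c s ≤ 3 := fun s => by simp only [hc]; split_ifs <;> norm_num
  have hb : ∀ P s, s ∈ range S → P ∈ bl h y s → 8 < P.natDegree := fun P s hs hP => by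
    have := div_anti y (show s + 1 ≤ S from mem_range.1 hs)
    have := (mem_blk.1 hP).2.2.1
    omega
  have w0 : ∀ P, 0 ≤ ww h y S c P := fun P => by
    rcases ww_cases h y S c P with ⟨-, H⟩ | ⟨s, -, -, H⟩ <;> rw [H]
    exacts [zero_le_one, c0 s]
  refine (hall_ten w0 (fun P => ?_) (fun P hP => ?_) hm).trans (mul_le_mul_of_nonneg_left
    ((prod_inv_le_exp _ _ fun P hP => ⟨div_nonneg (w0 P) (qq_pos _).le, ?_⟩).trans
      (Real.exp_le_exp.2 (mul_le_mul_of_nonneg_left ?_ zero_le_two)))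
    (mul_nonneg (by norm_num) (qq_pos _).le))
  · rcases ww_cases h y S c P with ⟨-, H⟩ | ⟨s, -, -, H⟩ <;> rw [H]
    exacts [by norm_num, c3 s]
  · rcases ww_cases h y S c P with ⟨-, H⟩ | ⟨s, hs, h3, -⟩
    · exact H.le
    · have := hb P s hs h3
      omega
  · rcases ww_cases h y S c P with ⟨-, H⟩ | ⟨s, hs, h3, H⟩ <;> rw [H]
    · exact inv_le_half (mem_irrLE.1 hP).2.1
    · rw [div_le_div_iff₀ (qq_pos _) two_pos]
      have h4 : (2 : ℝ) ^ 8 ≤ qq F P.natDegree :=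
        (pow_le_pow_right₀ one_le_two (hb P s hs h3).le).trans (two_pow_le_qq _)
      have := c3 s
      linarith
  · have e1 : ∑ s ∈ σ, ∑ P ∈ irrLE F n, (if P ∈ bl h y s then 3 * (1 / qq F P.natDegree) else 0) ≤
        3 * σ.card := by
      calc _ ≤ ∑ _s ∈ σ, (3 : ℝ) := sum_le_sum fun s _ => by
            rw [← sum_filter, ← mul_sum]
            have := (sum_le_sum_of_subset_of_nonneg
              (show (irrLE F n).filter (· ∈ bl h y s) ⊆ bl h y s from
                fun P hP => (mem_filter.1 hP).2) fun P _ _ => inv_nonneg' P.natDegree).trans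
              (sum_bl h y s)
            linarith
        _ = _ := by rw [sum_const, nsmul_eq_mul, mul_comm]
    refine le_trans ?_ (add_le_add e1 (sum_rest' hh h2 ((Nat.sub_le n y).trans hn)))
    unfold rest
    rw [sum_comm, sum_filter, ← sum_add_distrib]
    refine sum_le_sum fun P _ => ?_
    have h0 := inv_nonneg' (F := F) P.natDegree
    have h3 : ∀ s ∈ σ, 0 ≤ if P ∈ bl h y s then 3 * (1 / qq F P.natDegree) else 0 :=
      fun s _ => by split_ifs <;> linarith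
    rcases ww_cases h y S c P with ⟨H', H⟩ | ⟨s, hs, h4, H⟩ <;> rw [H]
    · rw [if_pos H']
      linarith [sum_nonneg h3]
    · rw [if_neg (not_not.2 ⟨s, hs, h4⟩), add_zero]
      by_cases h5 : s ∈ σ
      · refine le_trans (le_of_eq ?_) (single_le_sum h3 h5)
        rw [if_pos h4, hc]
        simp only [if_pos h5]
        ring
      · simp only [hc, if_neg h5, zero_div]
        exact sum_nonneg h3

theorem sum_GG' {h : F[X]} (hh : h ≠ 0) {y S D m n : ℕ} (h1 : 8 ≤ y / 2 ^ S) (h2 : y / 2 ^ S ≤ 15)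
    (hm : m ≤ n) (hn : n ≤ D * y) :
    (m : ℝ) * ∑ e ∈ monF F m, GG h y S e ≤
      5 * Real.exp (Real.exp 14 + 2 * (15 + wt h + D)) * qq F m := by
  set C : ℝ := 15 + wt h + D with hC
  have hq := qq_pos (F := F) m
  simp only [GG_eq]
  rw [sum_comm, mul_sum]
  calc _ ≤ ∑ σ ∈ (range S).powerset, (5 * qq F m * Real.exp (2 * C)) *
          ∏ s ∈ σ, Real.exp 14 * (1 / 2 ^ (2 * s + 3)) := by
        refine sum_le_sum fun σ _ => ?_
        rw [← mul_sum, mul_left_comm]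
        refine (mul_le_mul_of_nonneg_left (sum_cm' hh h1 h2 hm hn σ)
          (prod_nonneg fun s _ => by positivity)).trans (le_of_eq ?_)
        have e : ∏ s ∈ σ, Real.exp 14 * (1 / 2 ^ (2 * s + 3)) =
            (∏ s ∈ σ, Real.exp 8 / 2 ^ (2 * s + 3)) * Real.exp (σ.card * 6) := by
          rw [Real.exp_nat_mul, ← prod_const, ← prod_mul_distrib]
          refine prod_congr rfl fun s _ => ?_
          rw [show (14 : ℝ) = 8 + 6 by norm_num, Real.exp_add]
          ring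
        rw [e, ← hC, show 2 * (3 * (σ.card : ℝ) + C) = 2 * C + σ.card * 6 by ring, Real.exp_add]
        ring
    _ = (5 * qq F m * Real.exp (2 * C)) *
          ∏ s ∈ range S, (1 + Real.exp 14 * (1 / 2 ^ (2 * s + 3))) := by
        rw [← mul_sum, prod_one_add]
    _ ≤ (5 * qq F m * Real.exp (2 * C)) * Real.exp (Real.exp 14) := by
        refine mul_le_mul_of_nonneg_left ?_ (by positivity)
        calc _ ≤ ∏ s ∈ range S, Real.exp (Real.exp 14 * (1 / 2 ^ (2 * s + 3))) :=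
              prod_le_prod (fun s _ => by positivity) fun s _ => by
                rw [add_comm]; exact Real.add_one_le_exp _
          _ ≤ _ := by
              rw [← Real.exp_sum, ← mul_sum]
              exact Real.exp_le_exp.2 (mul_le_of_le_one_right (Real.exp_pos _).le (sum_pow S))
    _ = _ := by rw [Real.exp_add]; ring

theorem prod_VS' {h : F[X]} (hh : h ≠ 0) {y S : ℕ} (h2 : y / 2 ^ S ≤ 15) :
    (y : ℝ) * ∏ s ∈ range S, VS (bl h y s) ≤ Real.exp (2 * (15 + wt h)) := by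
  classical
  have hr : ∀ P ∈ rest h y S y, Irreducible P := fun P hP => (mem_irrLE.1 (mem_filter.1 hP).1).2.1
  have e1 : VS (irrLE F y) = (∏ s ∈ range S, VS (bl h y s)) * VS (rest h y S y) := by
    unfold VS rest
    rw [← prod_biUnion fun s _ t _ hst => disjoint_left.2 fun P h3 h4 => hst (bl_unique h3 h4),
      ← prod_filter_mul_prod_filter_not (irrLE F y) fun P => ∃ s ∈ range S, P ∈ bl h y s]
    congr 2
    ext P
    rw [mem_filter, mem_biUnion]
    refine ⟨fun H => H.2, fun H => ⟨?_, H⟩⟩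
    obtain ⟨s, -, hs⟩ := H
    obtain ⟨h3, h4, -, h5, -⟩ := mem_blk.1 hs
    exact mem_irrLE.2 ⟨h3, h4, h5.trans (Nat.div_le_self _ _)⟩
  have e2 : 0 < VS (rest h y S y) := prod_pos fun P hP => by linarith [inv_le_half (hr P hP)]
  have e3 : (VS (rest h y S y))⁻¹ ≤ Real.exp (2 * (15 + wt h)) := by
    unfold VS
    rw [← prod_inv_distrib]
    refine (prod_inv_le_exp _ _ fun P hP => ⟨inv_nonneg' _, inv_le_half (hr P hP)⟩).trans
      (Real.exp_le_exp.2 (mul_le_mul_of_nonneg_left ?_ zero_le_two))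
    simpa using sum_rest' (D := 0) (n := y) hh h2 (by simp)
  have e4 : 0 ≤ ∏ s ∈ range S, VS (bl h y s) := prod_nonneg fun s _ => prod_nonneg fun P hP => by
    linarith [inv_le_half (mem_blk.1 hP).2.1]
  have e5 := mertens (F := F) y
  rw [e1, ← mul_assoc, ← le_div_iff₀ e2, one_div] at e5
  nlinarith

theorem line_model' {h e e' : F[X]} (hh : h ≠ 0) {n i i' m m' y : ℕ} (S : ℕ) (hm : i + m = n)
    (hm' : i' + m' = n) (he : e ∈ monF F m) (he' : e' ∈ monF F m') (hy : n + 16 * y ≤ i + i') :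
    (∑ d ∈ monF F i, ∑ d' ∈ monF F i', ind (d' * e' = d * e + h) *
      (nu h y S (d * e) * |mu d| * (nu h y S (d' * e') * |mu d'|))) * qq F n ≤
      qq F (i + i') * (∑ g ∈ divs h, ind (g ∣ e) * ind (g ∣ e') * qq F g.natDegree) *
        ((∏ s ∈ range S, VS (bl h y s)) ^ 2 * (GG h y S e * GG h y S e')) := by
  classical
  obtain ⟨e1, e2⟩ := mem_monF.1 he
  obtain ⟨e3, e4⟩ := mem_monF.1 he'
  have g0 : 0 ≤ (∏ s ∈ range S, VS (bl h y s)) ^ 2 * (GG h y S e * GG h y S e') :=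
    mul_nonneg (sq_nonneg _) (mul_nonneg (prod_nonneg fun _ _ => TModB.gb_nonneg _ _)
      (prod_nonneg fun _ _ => TModB.gb_nonneg _ _))
  have g1 : ∀ g ∈ divs h, 0 ≤ ind (g ∣ e) * ind (g ∣ e') * qq F g.natDegree := fun g _ =>
    mul_nonneg (mul_nonneg (ind_nonneg _) (ind_nonneg _)) (qq_pos _).le
  by_cases hs : ∃ c ∈ monF F i, ∃ c' ∈ monF F i', c' * e' = c * e + h
  swap
  · rw [sum_eq_zero fun d hd => sum_eq_zero fun d' hd' => by
      rw [ind_neg fun h1 => hs ⟨d, hd, d', hd', h1⟩, zero_mul], zero_mul]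
    exact mul_nonneg (mul_nonneg (qq_pos _).le (sum_nonneg g1)) g0
  obtain ⟨c, hc, c', hc', h0⟩ := hs
  obtain ⟨g, a', a, gm, k1, k2, k4⟩ := TMult.exists_gcd e1.ne_zero e'
  have hg : g ≠ 0 := gm.ne_zero
  have ha : a ≠ 0 := fun h1 => e3.ne_zero (by rw [k2, h1, mul_zero])
  have d1 : g.natDegree + a.natDegree = m' := by rw [← e4, k2, natDegree_mul hg ha]
  have d0 : g ∣ h := ⟨c' * a - c * a', by rw [k1, k2] at h0; linear_combination -h0⟩
  have d2 : qq F g.natDegree ≤ ∑ g ∈ divs h, ind (g ∣ e) * ind (g ∣ e') * qq F g.natDegree := by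
    refine le_trans (le_of_eq ?_) (single_le_sum g1 ((mem_divs hh).2 ⟨gm, d0⟩))
    rw [ind_pos ⟨_, k1⟩, ind_pos ⟨_, k2⟩, one_mul, one_mul]
  obtain ⟨l, hl⟩ : ∃ l, l + a.natDegree = i := ⟨i - a.natDegree, by omega⟩
  set H : F[X] → ℝ := fun t => ∏ s ∈ range S,
    (bonf (2 * s + 2) (om (bl h y s) (c + a * t) + Om (bl h y s) e) *
      bonf (2 * s + 2) (om (bl h y s) (c' + a' * t) + Om (bl h y s) e')) with hH
  have H0 : ∀ t, 0 ≤ H t := fun t =>
    prod_nonneg fun s _ => mul_nonneg (bonf_nonneg _ _) (bonf_nonneg _ _)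
  have s1 : ∀ d ∈ monF F i, ∀ d' ∈ monF F i', ind (d' * e' = d * e + h) *
      (nu h y S (d * e) * |mu d| * (nu h y S (d' * e') * |mu d'|)) ≤
      ∑ t ∈ ltF F l, ind (d = c + a * t) * (ind (d' = c' + a' * t) * H t) := by
    intro d hd d' hd'
    have n0 : ∀ t ∈ ltF F l, 0 ≤ ind (d = c + a * t) * (ind (d' = c' + a' * t) * H t) :=
      fun t _ => mul_nonneg (ind_nonneg _) (mul_nonneg (ind_nonneg _) (H0 t))
    by_cases h1 : d' * e' = d * e + h
    swap
    · rw [ind_neg h1, zero_mul]; exact sum_nonneg n0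
    have h2 : (d' - c') * a = a' * (d - c) := mul_left_cancel₀ hg (by
      rw [k1, k2] at h0 h1; linear_combination h1 - h0)
    obtain ⟨t, ht⟩ := k4.symm.dvd_of_dvd_mul_left ⟨d' - c', by rw [← h2, mul_comm]⟩
    have h3 : d = c + a * t := by linear_combination ht
    have h4 : d' = c' + a' * t := by
      have : (d' - c') * a = a' * t * a := by rw [h2, ht]; ring
      linear_combination mul_right_cancel₀ ha this
    obtain ⟨m1, m2⟩ := mem_monF.1 hd
    obtain ⟨m3, m4⟩ := mem_monF.1 hc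
    have h5 : t ∈ ltF F l := by
      rw [mem_ltF]
      by_cases t0 : t = 0
      · rw [t0, degree_zero]; exact WithBot.bot_lt_coe _
      have h6 : (d - c).degree < d.degree := degree_sub_lt_left
        (by rw [degree_eq_natDegree m1.ne_zero, degree_eq_natDegree m3.ne_zero, m2, m4])
        m1.ne_zero (by rw [m1.leadingCoeff, m3.leadingCoeff])
      rw [ht, degree_eq_natDegree m1.ne_zero, m2, degree_eq_natDegree (mul_ne_zero ha t0),
        natDegree_mul ha t0, Nat.cast_lt] at h6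
      rw [degree_eq_natDegree t0, Nat.cast_lt]
      omega
    refine le_trans ?_ (single_le_sum n0 h5)
    rw [ind_pos h1, ind_pos h3, ind_pos h4, one_mul, one_mul, one_mul, hH]
    simp only [prod_mul_distrib, ← h3, ← h4]
    exact mul_le_mul (TModB.nu_le h y S m1.ne_zero e1.ne_zero)
      (TModB.nu_le h y S (mem_monF.1 hd').1.ne_zero e3.ne_zero)
      (mul_nonneg (prod_nonneg fun _ _ => bonf_nonneg _ _) (abs_nonneg _))
      (prod_nonneg fun _ _ => bonf_nonneg _ _)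
  have s2 : ∑ d ∈ monF F i, ∑ d' ∈ monF F i', ∑ t ∈ ltF F l,
      ind (d = c + a * t) * (ind (d' = c' + a' * t) * H t) ≤ ∑ t ∈ ltF F l, H t := by
    rw [sum_congr rfl fun d _ => sum_comm, sum_comm]
    refine sum_le_sum fun t _ => ?_
    simp only [← mul_sum, ← sum_mul]
    have := mul_le_of_le_one_left (H0 t) (TModB.sum_ind_le_one (monF F i') (c' + a' * t))
    exact (mul_le_of_le_one_left (mul_nonneg (sum_nonneg fun _ _ => ind_nonneg _) (H0 t))
      (TModB.sum_ind_le_one _ _)).trans this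
  have s3 : ∑ t ∈ ltF F l, H t = qq F l * 𝔼 t : degreeLT F l, H t.1 := by
    rw [← SPsi.sum_LT, ← Fintype.card_mul_expect, card_degreeLT, qq, Nat.cast_pow]
  have mb : ∀ s, ∀ P ∈ bl h y s, P.Monic := fun s P hP => (mem_blk.1 hP).1
  have s4 : 𝔼 t : degreeLT F l, H t.1 ≤
      (∏ s ∈ range S, VS (bl h y s)) ^ 2 * (GG h y S e * GG h y S e') := by
    rw [hH, expect_level h c a c' a' y S _ _ (by omega)
      (Nat.le_add_right (16 * y) (∑ s ∈ range S, (∏ P ∈ bl h y s, P).natDegree)),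
      expect_prod_coprime (range S) (fun s => ∏ P ∈ bl h y s, P)
        (fun s _ => (monic_prod_of_monic _ _ (mb s)).ne_zero)
        (fun s _ s' _ h1 => h1.lt_or_gt.elim (TModB.coprime_bl h y)
          fun h2 => (TModB.coprime_bl h y h2).symm)
        (fun s t => bonf (2 * s + 2) (om (bl h y s) (c + a * t) + Om (bl h y s) e) *
          bonf (2 * s + 2) (om (bl h y s) (c' + a' * t) + Om (bl h y s) e'))
        (fun s _ f t => by simp only [TModB.per_om]) (Nat.le_add_left _ _),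
      GG, GG, ← prod_pow, ← prod_mul_distrib, ← prod_mul_distrib]
    refine prod_le_prod (fun s _ => expect_nonneg fun _ _ =>
      mul_nonneg (bonf_nonneg _ _) (bonf_nonneg _ _)) fun s hs => ?_
    refine block_bound (h := h) (fun P hP => ?_) ?_ e1.ne_zero e3.ne_zero ⟨g, by rw [k2, mul_comm]⟩
      ⟨g, by rw [k1, mul_comm]⟩ h0 (by rw [k1, k2]; ring) s ?_
    · exact ⟨mb s P hP, (mem_blk.1 hP).2.1, (mem_blk.1 hP).2.2.2.2⟩
    · have := sum_inv_blk h (y / 2 ^ s)
      rwa [Nat.div_div_eq_div_mul, ← pow_succ] at this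
    · rw [← natDegree_prod_of_monic _ (fun P => P) (mb s)]
      exact (single_le_sum (f := fun s => (∏ P ∈ bl h y s, P).natDegree)
        (fun _ _ => Nat.zero_le _) hs).trans (Nat.le_add_left _ _)
  calc _ ≤ qq F l * _ * qq F n := mul_le_mul_of_nonneg_right
        (((sum_le_sum fun d hd => sum_le_sum (s1 d hd)).trans s2).trans
          (s3.trans_le (mul_le_mul_of_nonneg_left s4 (qq_pos _).le))) (qq_pos _).le
    _ ≤ _ := by
      rw [mul_right_comm, ← qq_add, show l + n = i + i' + g.natDegree by omega, qq_add]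
      exact mul_le_mul_of_nonneg_right (mul_le_mul_of_nonneg_left d2 (qq_pos _).le) g0

theorem GG_mul {h g e : F[X]} (hg : g ≠ 0) (hd : g ∣ h) (he : e ≠ 0) (y S : ℕ) :
    GG h y S (g * e) = GG h y S e := by
  refine prod_congr rfl fun s _ => ?_
  rw [Om_mul _ hg he, (Om_eq_zero (S := bl h y s)
    (fun P hP => ⟨(mem_blk.1 hP).1, (mem_blk.1 hP).2.1⟩) hg).2 fun P hP hP' => (mem_blk.1 hP).2.2.2.2 (hP'.trans hd), zero_add]

theorem GG_one (h : F[X]) (y S : ℕ) : GG h y S 1 ≤ Real.exp (Real.exp 14) := by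
  have h1 : ∀ s ∈ range S, gb (2 * s + 2) (Om (bl h y s) (1 : F[X])) ≤
      Real.exp (Real.exp 14 * (1 / 2 ^ (2 * s + 3))) := fun s _ => by
    rw [(Om_eq_zero (S := bl h y s)
      (fun P hP => ⟨(mem_blk.1 hP).1, (mem_blk.1 hP).2.1⟩) one_ne_zero).2 fun P hP => (mem_blk.1 hP).2.1.not_dvd_one, gb, ind_pos rfl, pow_zero, mul_one]
    refine le_trans ?_ (Real.add_one_le_exp _)
    rw [add_comm, mul_one_div]
    gcongr
    norm_num
  refine (prod_le_prod (fun s _ => TModB.gb_nonneg _ _) h1).trans ?_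
  rw [← Real.exp_sum, ← mul_sum]
  exact Real.exp_le_exp.2 (mul_le_of_le_one_right (Real.exp_pos _).le (sum_pow S))

theorem sum_GG_succ {h : F[X]} (hh : h ≠ 0) {y S D m n : ℕ} (h1 : 8 ≤ y / 2 ^ S)
    (h2 : y / 2 ^ S ≤ 15) (hm : m ≤ n) (hn : n ≤ D * y) :
    ((m : ℝ) + 1) * ∑ e ∈ monF F m, GG h y S e ≤
      10 * Real.exp (Real.exp 14 + 2 * (15 + wt h + D)) * qq F m := by
  rcases Nat.eq_zero_or_pos m with rfl | h0
  · rw [TBasB.monF_zero, sum_singleton, qq_zero]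
    have h3 : Real.exp (Real.exp 14) ≤ Real.exp (Real.exp 14 + 2 * (15 + wt h + D)) :=
      Real.exp_le_exp.2 (le_add_of_nonneg_right (by have := wt_nonneg h; positivity))
    have := GG_one h y S
    have := Real.exp_pos (Real.exp 14)
    push_cast
    linarith
  · have h3 := sum_GG' hh h1 h2 hm hn
    have h4 : (1 : ℝ) ≤ m := by exact_mod_cast h0
    have h5 : 0 ≤ ∑ e ∈ monF F m, GG h y S e := sum_nonneg fun _ _ => TSieve.GG_nonneg _ _ _ _
    nlinarith

theorem sum_GG_dvd {h g : F[X]} (hh : h ≠ 0) (hg : g ∈ divs h) {y S D m n : ℕ}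
    (h1 : 8 ≤ y / 2 ^ S) (h2 : y / 2 ^ S ≤ 15) (hm : m ≤ n) (hn : n ≤ D * y) :
    (m : ℝ) * ∑ e ∈ monF F m, ind (g ∣ e) * GG h y S e ≤ (1 + g.natDegree) / qq F g.natDegree *
      (10 * Real.exp (Real.exp 14 + 2 * (15 + wt h + D)) * qq F m) := by
  obtain ⟨g1, g2⟩ := (mem_divs hh).1 hg
  have q1 := qq_pos (F := F) g.natDegree
  by_cases hγ : g.natDegree ≤ m
  · obtain ⟨k, rfl⟩ := Nat.exists_eq_add_of_le hγ
    have h3 := sum_GG_succ hh h1 h2 (show k ≤ n by omega) hn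
    have h5 : 0 ≤ ∑ e ∈ monF F k, GG h y S e := sum_nonneg fun _ _ => TSieve.GG_nonneg _ _ _ _
    rw [TK.sum_dvd_eq g1, sum_congr rfl fun e he =>
      GG_mul g1.ne_zero g2 (mem_monF.1 he).1.ne_zero y S, qq_add]
    calc _ ≤ (1 + g.natDegree) * (((k : ℝ) + 1) * ∑ e ∈ monF F k, GG h y S e) := by
          rw [← mul_assoc]
          refine mul_le_mul_of_nonneg_right ?_ h5
          push_cast
          nlinarith [mul_nonneg (Nat.cast_nonneg (α := ℝ) k) (Nat.cast_nonneg (α := ℝ) g.natDegree)]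
      _ ≤ (1 + g.natDegree) * (10 * Real.exp (Real.exp 14 + 2 * (15 + wt h + D)) * qq F k) :=
          mul_le_mul_of_nonneg_left h3 (by positivity)
      _ = _ := by field_simp
  · rw [sum_eq_zero fun e he => by
      rw [ind_neg fun hd => hγ ((natDegree_le_of_dvd hd (mem_monF.1 he).1.ne_zero).trans
        (mem_monF.1 he).2.le), zero_mul], mul_zero]
    have := qq_pos (F := F) m
    positivity

theorem sum_divs {h : F[X]} (hh : h ≠ 0) :
    ∑ g ∈ divs h, ((1 : ℝ) + g.natDegree) ^ 2 / qq F g.natDegree ≤ 64 * Real.exp (3 * wt h) := by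
  have h0 : ∀ g : F[X], (0 : ℝ) ≤ (4 / 3) ^ g.natDegree * (1 / qq F g.natDegree) := fun g =>
    mul_nonneg (by positivity) (inv_nonneg' _)
  have h1 : ∀ P ∈ pf h, (2 / 3 : ℝ) ^ P.natDegree ≤ 2 / 3 := fun P hP =>
    pow_le_of_le_one (by norm_num) (by norm_num) ((mem_pf hh).1 hP).2.1.natDegree_pos.ne'
  have h2 := TEuler.sum_sm (t := fun g : F[X] => (4 / 3) ^ g.natDegree * (1 / qq F g.natDegree))
    h0 (by simp [qq_zero]) (fun f g hf hg => by
      rw [hf.natDegree_mul hg, qq_add, pow_add, ← one_div_mul_one_div]; ring) h.natDegree (pf h)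
    fun P hP => ⟨((mem_pf hh).1 hP).1, by linarith [TSing.pow_div_le (F := F) P.natDegree, h1 P hP]⟩
  have h3 : divs h ⊆ TEuler.sm h.natDegree (pf h) := fun g hg => by
    obtain ⟨a, b⟩ := (mem_divs hh).1 hg
    exact TEuler.mem_sm.2 ⟨a, natDegree_le_of_dvd b hh, fun Q c d e =>
      (mem_pf hh).2 ⟨c, d, e.trans b⟩⟩
  have h4 := (sum_le_sum_of_subset_of_nonneg h3 fun g _ _ => h0 g).trans h2
  have h5 : ∏ P ∈ pf h, (1 - (4 / 3 : ℝ) ^ P.natDegree * (1 / qq F P.natDegree))⁻¹ ≤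
      Real.exp (3 * wt h) := by
    rw [wt, mul_sum, Real.exp_sum]
    refine prod_le_prod (fun P hP => inv_nonneg.2 ?_) fun P hP => ?_
    · linarith [TSing.pow_div_le (F := F) P.natDegree, h1 P hP]
    · have a := TSing.pow_div_le (F := F) P.natDegree
      have b := h1 P hP
      have c := h0 P
      refine le_trans ?_ (Real.add_one_le_exp _)
      rw [inv_le_iff_one_le_mul₀ (by linarith)]
      nlinarith
  refine le_trans ?_ (mul_le_mul_of_nonneg_left (h4.trans h5) (by norm_num))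
  rw [mul_sum]
  refine sum_le_sum fun g _ => ?_
  rw [← mul_assoc, mul_one_div]
  refine div_le_div_of_nonneg_right ?_ (qq_pos _).le
  have a := one_add_mul_le_pow (show (-2 : ℝ) ≤ 1 / 8 by norm_num) g.natDegree
  have b : (0 : ℝ) ≤ g.natDegree := Nat.cast_nonneg _
  calc _ ≤ (8 * (1 + 1 / 8 : ℝ) ^ g.natDegree) ^ 2 :=
        pow_le_pow_left₀ (by positivity) (by linarith) 2
    _ = 64 * ((1 + 1 / 8) ^ 2) ^ g.natDegree := by rw [mul_pow, ← pow_mul, ← pow_mul, mul_comm 2]; norm_num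
    _ ≤ _ := by gcongr; norm_num

theorem mass' {h : F[X]} (hh : h ≠ 0) {n y S D R : ℕ} (h1 : 8 ≤ y / 2 ^ S) (h2 : y / 2 ^ S ≤ 15)
    (hn : n ≤ D * y) (hR : 8 * y ≤ R) (hhn : h.natDegree < n) :
    Mass h n R (64 * Real.exp (3 * wt h) * (D * Real.exp (2 * (15 + wt h))) ^ 2 *
      (10 * Real.exp (Real.exp 14 + 2 * (15 + wt h + D))) ^ 2) (nu h y S) := by
  intro i i' hi hi' hii
  obtain ⟨m, hm⟩ := Nat.exists_eq_add_of_le hi.le
  obtain ⟨m', hm'⟩ := Nat.exists_eq_add_of_le hi'.le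
  have e1 : (n : ℝ) - i = m := by rw [hm]; push_cast; ring
  have e2 : (n : ℝ) - i' = m' := by rw [hm']; push_cast; ring
  rw [e1, e2, TSieve.corr_eq hm.symm hm'.symm hhn]
  set C₁ := 10 * Real.exp (Real.exp 14 + 2 * (15 + wt h + D)) with hC₁
  set C₂ := D * Real.exp (2 * (15 + wt h)) with hC₂
  set V := ∏ s ∈ range S, VS (bl h y s) with hV
  set T := ∑ e ∈ monF F m, ∑ e' ∈ monF F m', ∑ d ∈ monF F i, ∑ d' ∈ monF F i',
    ind (d' * e' = d * e + h) * (nu h y S (d * e) * |mu d| * (nu h y S (d' * e') * |mu d'|))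
    with hT
  set A : ℕ → F[X] → ℝ := fun k g => ∑ e ∈ monF F k, ind (g ∣ e) * GG h y S e with hA
  have hV0 : 0 ≤ V := prod_nonneg fun _ _ => TSieve.VS_nonneg _
  have hA0 : ∀ k g, 0 ≤ A k g := fun k g =>
    sum_nonneg fun _ _ => mul_nonneg (ind_nonneg _) (TSieve.GG_nonneg _ _ _ _)
  have a1 : T * qq F n ≤ qq F (i + i') * V ^ 2 *
      ∑ g ∈ divs h, qq F g.natDegree * (A m g * A m' g) := by
    have b1 : T * qq F n ≤ ∑ e ∈ monF F m, ∑ e' ∈ monF F m', qq F (i + i') *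
        (∑ g ∈ divs h, ind (g ∣ e) * ind (g ∣ e') * qq F g.natDegree) *
          (V ^ 2 * (GG h y S e * GG h y S e')) := by
      rw [hT, sum_mul]
      refine sum_le_sum fun e he => ?_
      rw [sum_mul]
      exact sum_le_sum fun e' he' => line_model' hh S hm.symm hm'.symm he he' (by omega)
    refine b1.trans_eq ?_
    simp only [hA, sum_mul_sum]
    simp only [mul_sum, sum_mul]
    rw [sum_congr rfl fun e _ => sum_comm, sum_comm]
    exact sum_congr rfl fun g _ => sum_congr rfl fun e _ => sum_congr rfl fun e' _ => by ring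
  have c1 : 0 ≤ C₁ := by positivity
  have a2 : (m : ℝ) * m' * ∑ g ∈ divs h, qq F g.natDegree * (A m g * A m' g) ≤
      64 * Real.exp (3 * wt h) * (C₁ * qq F m * (C₁ * qq F m')) := by
    have b0 : 0 ≤ C₁ * qq F m * (C₁ * qq F m') :=
      mul_nonneg (mul_nonneg c1 (qq_pos _).le) (mul_nonneg c1 (qq_pos _).le)
    refine le_trans ?_ (mul_le_mul_of_nonneg_right (sum_divs hh) b0)
    rw [mul_sum, sum_mul]
    refine sum_le_sum fun g hg => ?_
    have b1 := sum_GG_dvd hh hg h1 h2 (show m ≤ n by omega) hn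
    have b2 := sum_GG_dvd hh hg h1 h2 (show m' ≤ n by omega) hn
    have b3 : 0 ≤ (m : ℝ) * A m g := mul_nonneg (Nat.cast_nonneg _) (hA0 _ _)
    have b4 : 0 ≤ (m' : ℝ) * A m' g := mul_nonneg (Nat.cast_nonneg _) (hA0 _ _)
    have b5 := qq_pos (F := F) g.natDegree
    calc _ = qq F g.natDegree * (m * A m g * (m' * A m' g)) := by ring
      _ ≤ qq F g.natDegree * ((1 + g.natDegree) / qq F g.natDegree * (C₁ * qq F m) *
          ((1 + g.natDegree) / qq F g.natDegree * (C₁ * qq F m'))) :=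
          mul_le_mul_of_nonneg_left (mul_le_mul b1 b2 b4 (b3.trans b1)) b5.le
      _ = _ := by field_simp
  have a4 : (n : ℝ) * V ≤ C₂ := by
    have b1 : (n : ℝ) ≤ D * y := by exact_mod_cast hn
    calc (n : ℝ) * V ≤ D * y * V := mul_le_mul_of_nonneg_right b1 hV0
      _ = D * (y * V) := mul_assoc _ _ _
      _ ≤ C₂ := mul_le_mul_of_nonneg_left (prod_VS' hh h2) (Nat.cast_nonneg _)
  have hn0 : (0 : ℝ) < n := by exact_mod_cast (Nat.zero_le i).trans_lt hi
  have g1 : 0 ≤ (m : ℝ) * m' * ∑ g ∈ divs h, qq F g.natDegree * (A m g * A m' g) :=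
    mul_nonneg (by positivity) (sum_nonneg fun g _ =>
      mul_nonneg (qq_pos _).le (mul_nonneg (hA0 _ _) (hA0 _ _)))
  have a5 : qq F (i + i') * (qq F m * qq F m') = qq F n * qq F n := by
    rw [← qq_add, ← qq_add, ← qq_add]
    congr 1
    omega
  rw [le_div_iff₀ (by positivity)]
  refine le_of_mul_le_mul_right ?_ (qq_pos (F := F) n)
  calc (m : ℝ) * m' * T * (n : ℝ) ^ 2 * qq F n = (m * m' * (n : ℝ) ^ 2) * (T * qq F n) := by ring
    _ ≤ (m * m' * (n : ℝ) ^ 2) * (qq F (i + i') * V ^ 2 *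
      ∑ g ∈ divs h, qq F g.natDegree * (A m g * A m' g)) :=
        mul_le_mul_of_nonneg_left a1 (by positivity)
    _ = qq F (i + i') * ((n * V) ^ 2 *
      (m * m' * ∑ g ∈ divs h, qq F g.natDegree * (A m g * A m' g))) := by ring
    _ ≤ qq F (i + i') * (C₂ ^ 2 * (64 * Real.exp (3 * wt h) * (C₁ * qq F m * (C₁ * qq F m')))) :=
        mul_le_mul_of_nonneg_left (mul_le_mul (pow_le_pow_left₀ (mul_nonneg hn0.le hV0) a4 2)
          a2 g1 (sq_nonneg _)) (qq_pos _).le
    _ = 64 * Real.exp (3 * wt h) * C₂ ^ 2 * C₁ ^ 2 * (qq F (i + i') * (qq F m * qq F m')) := by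
        ring
    _ = 64 * Real.exp (3 * wt h) * C₂ ^ 2 * C₁ ^ 2 * qq F n * qq F n := by rw [a5]; ring

end Mass

theorem exists_sieve' {D : ℕ} (hD : 0 < D) : ∃ C : ℝ, 0 ≤ C ∧
    ∀ M : ℕ, 0 < M → ∃ n₀ : ℕ, ∀ n, n₀ ≤ n → ∀ h : F[X], h ≠ 0 → h.natDegree < n →
      ∃ (ν κ : F[X] → ℝ) (ι : Type) (Z : Finset ι) (a b α : ι → F[X] → ℝ),
        Sieve n (n / D) (qq F (n / M)) ν κ Z a b α ∧
          Mass h n (n / D) (C * Real.exp (11 * wt h)) ν := by
  refine ⟨64 * ((16 * D : ℕ) * Real.exp (2 * 15)) ^ 2 *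
      (10 * Real.exp (Real.exp 14 + 2 * (15 + (16 * D : ℕ)))) ^ 2, by positivity, fun M hM => ?_⟩
  obtain ⟨n₀, hn₀⟩ := TSieve.size M hM
  refine ⟨n₀ + 64 * D + 1, fun n hn h hh hhn => ?_⟩
  set R := n / D with hR
  set y := R / 8 with hy
  set S := Nat.log 2 (y / 8) with hS
  have r1 : 64 ≤ R := (Nat.le_div_iff_mul_le hD).2 (by omega)
  have r2 : R ≤ n := Nat.div_le_self _ _
  have r3 : n < D * (R + 1) := Nat.lt_mul_div_succ n hD
  have s1 : 2 ^ S ≤ y / 8 := Nat.pow_log_le_self 2 (by omega)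
  have s2 : y / 8 < 2 ^ (S + 1) := Nat.lt_pow_succ_log_self one_lt_two _
  have h1 : 8 ≤ y / 2 ^ S := (Nat.le_div_iff_mul_le (Nat.two_pow_pos S)).2 (by omega)
  have h2 : y / 2 ^ S ≤ 15 := by
    rw [pow_succ] at s2
    exact Nat.le_of_lt_succ ((Nat.div_lt_iff_lt_mul (Nat.two_pow_pos S)).2 (by omega))
  have h3 : n ≤ 16 * D * y := by
    have c1 : D * (R + 1) ≤ D * (16 * y) := Nat.mul_le_mul_left _ (by omega)
    calc n ≤ D * (16 * y) := r3.le.trans c1
      _ = 16 * D * y := by ring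
  obtain ⟨κ, Z, a, b, α, hs⟩ := sieve_nu h (n := n) (y := y) (S := S) (by omega)
  refine ⟨nu h y S, κ, _, Z, a, b, α, TSieve.sieve_mono hs (by omega) ?_, ?_⟩
  · refine le_trans ?_ (two_pow_le_qq _)
    exact_mod_cast hn₀ n S (by omega) (by omega)
  · convert mass' hh h1 h2 h3 (R := R) (by omega) hhn using 1
    rw [show 11 * wt h = 3 * wt h + 2 * (2 * wt h) + 2 * (2 * wt h) by ring,
      show 2 * (15 + wt h) = 2 * 15 + 2 * wt h by ring,
      show Real.exp 14 + 2 * (15 + wt h + (16 * D : ℕ)) =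
        Real.exp 14 + 2 * (15 + (16 * D : ℕ)) + 2 * wt h by ring]
    simp only [Real.exp_add _ (2 * wt h), two_mul (2 * wt h), ← add_assoc]
    ring

open TK in
theorem central_le' [CharP F 2] : ∃ n₀ : ℕ, ∀ n, n₀ ≤ n → ∀ h : F[X], h ≠ 0 →
    1000 * h.natDegree ≤ n → ∀ (I I' : ℕ) (α β : F[X] → ℝ), Bd I α → Bd I' β → I' ≤ I →
      n < I + I' → 2 * I ≤ n + n / 100000 →
      |∑ A ∈ monF F I, ∑ B ∈ monF F I', α A * β B * dis h n A B| ≤
        qq F n / qq F (n / 2000000) := by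
  obtain ⟨n₁, H₁⟩ := exists_DivB (F := F) 2 1000000 (by norm_num)
  obtain ⟨n₂, H₂⟩ := exists_poly (F := F) 100 3 1000000 (by norm_num)
  obtain ⟨n₃, H₃⟩ := exists_DivB (F := F) 1 2000000 (by norm_num)
  refine ⟨n₁ + n₂ + n₃ + 1000000, fun n hn h hh hhn I I' α β hα hβ hI hlt hD => ?_⟩
  rw [sum_gcd hh (by omega) (by omega) _ fun A B g hA hB hg => by
    rw [dis_gcd n hA hB hg, mul_zero]]
  have hb : ∀ g ∈ divs h, |∑ d ∈ monF F (I - g.natDegree), ∑ x ∈ monF F (I' - g.natDegree),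
      ind (IsCoprime d x) * (α (g * d) * β (g * x) * dis h n (g * d) (g * x))| ≤
      qq F n / qq F (n / 1000000) := by
    intro g hg
    obtain ⟨hm, h₁, rfl⟩ := (mem_divs hh).1 hg
    have h₁0 : h₁ ≠ 0 := right_ne_zero_of_mul hh
    have hdeg := natDegree_mul hm.ne_zero h₁0
    by_cases hc : I + I' - g.natDegree ≤ n
    · rw [Finset.sum_eq_zero fun d hd => Finset.sum_eq_zero fun x hx => ?_, abs_zero]
      · exact (div_pos (qq_pos _) (qq_pos _)).le
      · obtain ⟨hd1, hd2⟩ := mem_monF.1 hd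
        obtain ⟨hx1, hx2⟩ := mem_monF.1 hx
        rw [dis_per _ ((hm.mul hd1).mul hx1).ne_zero (dvd_mul_right _ _)
          ⟨d, by ring⟩ (by
            rw [(hm.mul hd1).natDegree_mul hx1, hm.natDegree_mul hd1]; omega)]
        ring
    · obtain ⟨t, ht⟩ : ∃ t, I + I' - g.natDegree = n + t := ⟨I + I' - g.natDegree - n, by omega⟩
      have e : I - g.natDegree = n - I' + t := by omega
      have hb := bilin (h := h₁) h₁0 (n := n) (ν := n - I') (t := t) (I' := I' - g.natDegree)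
        (l := n / 1000) (η := n / 1000000) (by omega) (by omega) (by omega) (by omega) (by omega)
        (by omega) (by omega) (H₁ n (by omega)) (by exact_mod_cast H₂ n (by omega))
        (α := fun d => α (g * d)) (β := fun x => β (g * x))
        (fun d hd => hα _ (by
          obtain ⟨hd1, hd2⟩ := mem_monF.1 hd
          exact mem_monF.2 ⟨hm.mul hd1, by rw [hm.natDegree_mul hd1]; omega⟩))
        (fun x hx => hβ _ (by
          obtain ⟨hx1, hx2⟩ := mem_monF.1 hx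
          exact mem_monF.2 ⟨hm.mul hx1, by rw [hm.natDegree_mul hx1]; omega⟩))
      rw [e]
      refine le_of_eq_of_le ?_ hb
      congr 1
      refine Finset.sum_congr rfl fun d hd => Finset.sum_congr rfl fun x hx => ?_
      obtain ⟨hd1, hd2⟩ := mem_monF.1 hd
      obtain ⟨hx1, hx2⟩ := mem_monF.1 hx
      unfold kk
      by_cases hco : IsCoprime d x
      · rw [dis_kk hm hd1 hx1 hco (ν := n - I') (t := t) (by omega) hd2 (by omega)
          ((degree_le_natDegree).trans_lt (by exact_mod_cast (by omega)))]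
        ring
      · rw [ind_neg hco]; ring
  refine (Finset.abs_sum_le_sum_abs _ _).trans ((Finset.sum_le_card_nsmul _ _ _ hb).trans ?_)
  have h1 := H₃ n (by omega) h hh (by omega)
  have h2 : qq F (n / 2000000) * qq F (n / 2000000) ≤ qq F (n / 1000000) := by
    rw [← qq_add]; exact qq_mono (by omega)
  have h3 := qq_pos (F := F) n
  have h4 := qq_pos (F := F) (n / 2000000)
  have h5 := qq_pos (F := F) (n / 1000000)
  rw [nsmul_eq_mul, ← mul_div_assoc, div_le_div_iff₀ h5 h4]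
  calc ((divs h).card : ℝ) * qq F n * qq F (n / 2000000)
      = qq F n * ((divs h).card * qq F (n / 2000000)) := by ring
    _ ≤ qq F n * (qq F (n / 2000000) * qq F (n / 2000000)) := by gcongr
    _ ≤ _ := by gcongr

theorem central' [CharP F 2] : ∃ D : ℕ, 0 < D ∧ ∃ C : ℕ, 0 < C ∧
    ∃ n₀ : ℕ, ∀ n, n₀ ≤ n → ∀ h : F[X], h ≠ 0 → 1000 * h.natDegree ≤ n → ∀ (I I' : ℕ) (α β : F[X] → ℝ), Bd I α → Bd I' β →
      (I + I' ≤ n ∨ (2 * I ≤ n + n / D ∧ 2 * I' ≤ n + n / D)) →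
      |corr h n (up α I) (up β I') - qq F n * mcorr h (5 * n) (up α I) (up β I')| ≤
        qq F n / qq F (n / C) := by
  obtain ⟨n₀, H⟩ := central_le' (F := F)
  refine ⟨100000, by norm_num, 2000000, by norm_num, n₀ + 1,
    fun n hn h hh hhn I I' α β hα hβ hI => ?_⟩
  by_cases h0 : I + I' ≤ n
  · rw [TK.expand, Finset.sum_eq_zero fun A hA => Finset.sum_eq_zero fun B hB => ?_, abs_zero]
    · exact (div_pos (qq_pos _) (qq_pos _)).le
    · obtain ⟨h1, h2⟩ := mem_monF.1 hA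
      obtain ⟨h3, h4⟩ := mem_monF.1 hB
      rw [TK.dis_per _ (h1.mul h3).ne_zero (dvd_mul_right _ _) (dvd_mul_left _ _)
        (by rw [h1.natDegree_mul h3]; omega), mul_zero]
  obtain ⟨h1, h2⟩ := hI.resolve_left h0
  rcases le_total I' I with hle | hle
  · rw [TK.expand]
    exact H n (by omega) h hh hhn I I' α β hα hβ hle (by omega) h1
  · rw [corr_comm ((degree_le_natDegree).trans_lt (by exact_mod_cast (by omega))),
      mcorr_comm ((degree_le_natDegree).trans_lt (by exact_mod_cast (by omega))), TK.expand]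
    exact H n (by omega) h hh hhn I' I β α hβ hα hle (by omega) h2

theorem setup' [CharP F 2] (M : ℕ) : ∃ C : ℕ, 0 < C ∧ ∃ n₀ : ℕ, ∀ n, n₀ ≤ n →
    ∀ h : F[X], 10 * C * h.natDegree ≤ n → ∃ (L : ℕ) (τ : ℝ), DivB F τ n ∧ 1 ≤ n / C ∧ h.natDegree < n ∧
      100 * n * τ ^ 4 * qq F (2 * h.natDegree) ≤ qq F (n / C) ∧
      (∀ E, n ≤ M * E → 2 * L + 20 * (n / C) + 5 ≤ E) ∧
      ∀ N, n ≤ 4 * N → N ≤ n → ∃ d u r, Par F N L (n / C) d u r := by
  obtain ⟨C, hC, hC0, n₁, H⟩ := exists_Par (F := F) (16 * (M + 1)) (100 * (M + 1))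
  obtain ⟨n₂, H₂⟩ := exists_DivB (F := F) 1 (10 * C) (by omega)
  obtain ⟨n₃, H₃⟩ := exists_poly (F := F) 100 1 (10 * C) (by omega)
  refine ⟨C, hC0, n₁ + n₂ + n₃ + 10 * C + 100 * (M + 1), fun n hn h hhn =>
    ⟨n / (8 * (M + 1)), qq F (n / (10 * C)), by simpa using H₂ n (by omega), ?_, by nlinarith,
      ?_, fun E hE => ?_, fun N h1 h2 => H n (by omega) N _ h1 h2 ?_ ?_⟩⟩
  · exact (Nat.le_div_iff_mul_le hC0).2 (by nlinarith)
  · have a1 := H₃ n (by omega)
    have a2 : h.natDegree ≤ n / (10 * C) := (Nat.le_div_iff_mul_le (by omega)).2 (by nlinarith)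
    have a3 : 10 * (n / (10 * C)) ≤ n / C := by
      rw [mul_comm 10 C, ← Nat.div_div_eq_div_mul]; omega
    rw [pow_one] at a1
    generalize n / (10 * C) = z at a1 a2 a3
    calc _ ≤ qq F z * qq F z ^ 4 * qq F (2 * z) := by
          have := qq_pos (F := F) z
          have := qq_pos (F := F) (2 * h.natDegree)
          gcongr
          · exact_mod_cast a1
          · exact qq_mono (by omega)
      _ ≤ _ := by rw [qq_pow, ← qq_add, ← qq_add]; exact qq_mono (by omega)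
  · have a1 := Nat.div_mul_le_self n (8 * (M + 1))
    have a2 := Nat.div_mul_le_self n C
    generalize n / (8 * (M + 1)) = L at a1
    generalize n / C = η at a2
    have a3 : 8 * L ≤ E := Nat.le_of_mul_le_mul_left (c := M + 1) (by nlinarith) (by omega)
    have a4 : 100 * η ≤ E := Nat.le_of_mul_le_mul_left (c := M + 1) (by nlinarith) (by omega)
    have a5 : 100 ≤ E := Nat.le_of_mul_le_mul_left (c := M + 1) (by nlinarith) (by omega)
    omega
  · have a1 := Nat.lt_mul_div_succ n (b := 8 * (M + 1)) (by omega)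
    have a2 : 1 ≤ n / (8 * (M + 1)) := (Nat.le_div_iff_mul_le (by omega)).2 (by omega)
    nlinarith
  · have a1 := Nat.div_mul_le_self n (8 * (M + 1))
    nlinarith

open TLU in
theorem estL' [CharP F 2] (M : ℕ) : ∃ C : ℕ, 0 < C ∧ ∃ n₀ : ℕ,
    ∀ n, n₀ ≤ n → ∀ h : F[X], h ≠ 0 → 10 * C * h.natDegree ≤ n → ∀ E i ε₁ ε₂ μ κ : ℕ, n ≤ M * E → i + ε₁ + ε₂ = n → μ + κ = n →
      (ε₁ + E ≤ κ ∧ 2 * κ + 4 * ε₂ + E ≤ n ∨ ε₁ + ε₂ + E ≤ κ ∧ 2 * κ + E ≤ n) →
      ∀ α₁ β₁ α₂ β₂ : F[X] → ℝ, Bd μ α₁ → Bd κ β₁ → Bd ε₁ α₂ →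
        (∀ e ∈ monF F ε₂, |β₂ e| ≤ ind (Squarefree e)) →
        |corr h n (cv α₁ β₁ μ κ) (cv3 lam α₂ β₂ i ε₁ ε₂)| ≤ qq F n / qq F (n / C) := by
  obtain ⟨C, hC, n₀, H⟩ := setup' (F := F) M
  refine ⟨C, hC, n₀, fun n hn h hh hC' E i ε₁ ε₂ μ κ hE h1 h2 h3 α₁ β₁ α₂ β₂ a1 b1 a2 b2 => ?_⟩
  obtain ⟨L, τ, hτ, hη1, hhn, hη, hL, hP⟩ := H n hn h hC'
  rcases h3 with ⟨h3, h4⟩ | ⟨h3, h4⟩
  · simpa using fin hη1 le_rfl (one_le_qq _)
      (coreL hh hτ hhn hη (hL E hE) hP h1 h2 h3 h4 a1 b1 a2 b2)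
  · rw [corr_merge (τ := τ) (one_pos.trans_le hτ.one_le).ne']
    exact fin hη1 hτ.one_le (tau_le (by omega) hτ.one_le hη)
      (coreL hh hτ hhn hη (hL E hE) hP (by omega) h2 h3 h4 a1 b1
        (bd_merge hτ (by omega) a2 fun e he => (b2 e he).trans (ind_le_one _))
        fun e he => by rw [sq_zero he, abs_one])

open TLU in
theorem estU' [CharP F 2] (M : ℕ) : ∃ C : ℕ, 0 < C ∧ ∃ n₀ : ℕ,
    ∀ n, n₀ ≤ n → ∀ h : F[X], h ≠ 0 → 10 * C * h.natDegree ≤ n → ∀ E i ε₁ ε₂ κ : ℕ, n ≤ M * E → i + ε₁ + ε₂ = n → n ≤ 2 * i → κ + E ≤ i →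
      2 * κ + E ≤ n → ∀ β₁ α₂ β₂ : F[X] → ℝ, Bd κ β₁ → Bd ε₁ α₂ → Bd ε₂ β₂ →
        |corr h n (up β₁ κ) (cv3 lam α₂ β₂ i ε₁ ε₂)| ≤ qq F n / qq F (n / C) := by
  obtain ⟨C, hC, n₀, H⟩ := setup' (F := F) M
  refine ⟨C, hC, n₀, fun n hn h hh hC' E i ε₁ ε₂ κ hE h1 h2 h3 h4 β₁ α₂ β₂ b1 a2 b2 => ?_⟩
  obtain ⟨L, τ, hτ, hη1, hhn, hη, hL, hP⟩ := H n hn h hC'
  rw [corr_merge (τ := τ) (one_pos.trans_le hτ.one_le).ne']
  exact fin hη1 hτ.one_le (tau_le (by omega) hτ.one_le hη)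
    (coreU hh hτ hhn hη (hL E hE) hP (by omega) h2 h3 h4 b1 (bd_merge hτ (by omega) a2 b2))

open TFin in
theorem twin_unif [CharP F 2] {ε : ℝ} (hε : 0 < ε) : ∃ W : ℕ, 0 < W ∧ ∃ n₀ : ℕ, ∀ n, n₀ ≤ n →
    ∀ h : F[X], h ≠ 0 → W * h.natDegree ≤ n →
      (n : ℝ) ^ 2 * (∑ f ∈ monF F n, ind (Irreducible f ∧ Irreducible (f + h))) / qq F n ≤
        sing h n + ε * Real.exp (11 * wt h) := by
  obtain ⟨D, hD, CK, hCK, n₁, HK⟩ := central' (F := F)
  obtain ⟨C, hC, HS⟩ := exists_sieve' (F := F) (D := 100 * D) (by omega)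
  obtain ⟨M₀, hM₀⟩ := exists_nat_gt (16 * C / ε)
  obtain ⟨M, hM, hM'⟩ : ∃ M : ℕ, 100 * D ≤ M ∧ 16 * C / ε < M :=
    ⟨M₀ + 100 * D, by omega, hM₀.trans_le (by exact_mod_cast Nat.le_add_right _ _)⟩
  obtain ⟨CL, hCL, n₂, HL⟩ := estL' (F := F) (2 * M)
  obtain ⟨CU, hCU, n₃, HU⟩ := estU' (F := F) (2 * M)
  have hq : 0 < Fintype.card F := Fintype.card_pos
  obtain ⟨W, hW⟩ : ∃ W, W = 100 * (CK + CL + CU + M + Fintype.card F * (100 * D)) := ⟨_, rfl⟩
  have hW0 : 0 < W := by omega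
  obtain ⟨n₄, HS⟩ := HS W hW0
  obtain ⟨n₅, Hτ⟩ := exists_DivB (F := F) 5 W hW0
  obtain ⟨n₆, HQ⟩ := exists_poly (F := F) 3 1 W hW0
  obtain ⟨n₇, hn₇⟩ := exists_nat_gt (2 * (43 + 3 * Real.exp 18) / ε)
  obtain ⟨n₈, HP⟩ := exists_poly (F := F) 1 1 (W * 2) (by omega)
  refine ⟨10 * W, by omega, n₁ + n₂ + n₃ + n₄ + n₅ + n₆ + n₇ + n₈ + M + 2,
    fun n hn h hh hhn => ?_⟩
  have d0 : ∀ c, c ≤ 10 * W → c * h.natDegree ≤ n := fun c hc =>
    (Nat.mul_le_mul_right _ hc).trans hhn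
  have d1 := d0 1000 (by omega)
  have d2 : 10 * h.natDegree ≤ n / W := (Nat.le_div_iff_mul_le hW0).2 (by nlinarith)
  obtain ⟨ν, κ, ι, Z, a, b, α, hs, hm⟩ := HS n (by omega) h hh (by omega)
  have hτ := Hτ n (by omega)
  have hn0 : (2 : ℝ) ≤ n := by exact_mod_cast (by omega)
  have hQ : (n : ℝ) + 2 ≤ qq F (n / W) := le_trans (by push_cast; linarith) (HQ n (by omega))
  have hP := HP n (by omega)
  rw [← Nat.div_div_eq_div_mul, Nat.cast_one, one_mul, pow_one] at hP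
  have b1 := mul_div_le (c := 100) hCK (M := W) (by omega) n
  have b2 := mul_div_le (c := 100) hCL (M := W) (by omega) n
  have b3 := mul_div_le (c := 100) hCU (M := W) (by omega) n
  have b4 := mul_div_le (c := 100) (C := M) (by omega) (M := W) (by omega) n
  have b5 := mul_div_le (c := 100 * Fintype.card F) (C := 100 * D) (by omega) (M := W)
    (by rw [mul_assoc]; omega) n
  have b6 := mul_div_le (c := 1) (C := 100 * D) (by omega) (M := M) (by omega) n
  have b7 := mul_div_le (c := 100) hD (M := 100 * D) le_rfl n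
  have b8 := Nat.div_le_self n D
  have b9 := Nat.div_mul_le_self n M
  have b10 : 1 ≤ n / M := (Nat.le_div_iff_mul_le (by omega)).2 (by omega)
  have b11 : n ≤ 2 * M * (n / M) := by
    have := Nat.lt_mul_div_succ n (b := M) (by omega)
    nlinarith
  rw [mul_assoc] at b5
  generalize n / W = t at *
  generalize n / (100 * D) = R at *
  generalize n / M = E at *
  have hE : Est h n (n / D) E (qq F n / qq F (100 * t)) :=
    ⟨fun I I' α β h1 h2 h3 => (HK n (by omega) h hh d1 I I' α β h1 h2 h3).trans (div_qq_mono n b1),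
      fun i ε₁ ε₂ μ κ h1 h2 h3 α₁ β₁ α₂ β₂ h4 h5 h6 h7 =>
        (HL n (by omega) h hh (d0 _ (by omega)) E i ε₁ ε₂ μ κ b11 h1 h2 h3 α₁ β₁ α₂ β₂ h4 h5 h6
          h7).trans (div_qq_mono n b2),
      fun i ε₁ ε₂ κ h1 h2 h3 h4 β₁ α₂ β₂ h5 h6 h7 =>
        (HU n (by omega) h hh (d0 _ (by omega)) E i ε₁ ε₂ κ b11 h1 h2 h3 h4 β₁ α₂ β₂ h5 h6
          h7).trans (div_qq_mono n b3)⟩
  have hq0 := qq_pos (F := F) n
  have hq1 := qq_pos (F := F) t
  have hx : 1 ≤ Real.exp (11 * wt h) := Real.one_le_exp (by linarith [wt_nonneg h])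
  generalize Real.exp (11 * wt h) = x at *
  have hκ : ∀ K : F[X], K.Monic → K.natDegree ≤ n → |κ K| ≤ qq F t := fun K => hs.lev.abs_coef
  have h1 := TSum.twin_sub (h := h) (by omega) hs hQ
  have h2 := TSum.total (T := 30 * t) (by omega) (div_pos hq0 (qq_pos _)).le hE hs
    (hτ.mono (by omega)) hQ (by omega) b8 (by positivity) hm le_rfl
    (fun i i' hi hi' hR => mcorr_small hh (by omega) (by omega) hi.le hi'.le hR hτ hκ)
    (by positivity)
  have h3 := mcorr_main hh (n := n) (R := R + 2 * (30 * t)) (by omega) (by omega) (by omega)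
    (by omega) hτ hκ (hs.lev.coef_one.trans hs.unit)
  have h4 : |mainT h n (2 * (R + 2 * (30 * t))) - sing h n| ≤
      |3 * Real.exp (3 * (pf h).card + 18)| * n * (3 / 4) ^ (R + 2 * (30 * t)) := by
    refine (TSing.approx hh (by omega) (by omega) (by omega)).trans ?_
    exact mul_le_mul (mul_le_mul_of_nonneg_right (le_abs_self _) (by positivity))
      (pow_le_pow_of_le_one (by norm_num) (by norm_num) (by omega)) (by positivity)
      (by positivity)
  rw [show qq F (30 * t) = qq F t ^ 30 by rw [qq_pow, mul_comm],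
    show qq F (100 * t) = qq F t ^ 100 by rw [qq_pow, mul_comm],
    show 4 * ((E + 2 * (30 * t) : ℕ) : ℝ) * n * (C * x * qq F n / (n : ℝ) ^ 2) =
      4 * ((E + 2 * (30 * t) : ℕ) : ℝ) * C / n * x * qq F n by field_simp] at h2
  have h5 := numer hQ (by positivity) (by rw [qq_pow]; exact qq_mono (by omega)) hq0
    (by positivity) (by positivity) (small (by omega)) h1 h2 h3 h4
  have h6 : 4 * ((E + 2 * (30 * t) : ℕ) : ℝ) * C / n ≤ ε / 2 := by
    have c1 : ((E + 2 * (30 * t) : ℕ) : ℝ) * M ≤ 2 * n := by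
      exact_mod_cast (by nlinarith : (E + 2 * (30 * t)) * M ≤ 2 * n)
    have c2 : (0 : ℝ) < M := by exact_mod_cast (by omega)
    rw [div_lt_iff₀ hε] at hM'
    rw [div_le_iff₀ (by positivity)]
    refine le_of_mul_le_mul_right ?_ c2
    nlinarith [mul_le_mul_of_nonneg_right c1 hC, mul_le_mul_of_nonneg_left hM'.le
      (by positivity : (0 : ℝ) ≤ n)]
  have h7 : (19 + 24 * (4 / 3) ^ h.natDegree + |3 * Real.exp (3 * (pf h).card + 18)|) / qq F t ≤
      ε / 2 := by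
    have c1 : (n₇ : ℝ) ≤ n := by exact_mod_cast (by omega)
    have c2 : (pf h).card ≤ h.natDegree :=
      SLine.card_le_natDegree hh _ fun P hP => (mem_pf hh).1 hP
    have c3 : Real.exp 3 ≤ 32 := by
      have := Real.exp_one_lt_d9
      calc Real.exp 3 = Real.exp 1 ^ 3 := by rw [← Real.exp_nat_mul]; norm_num
        _ ≤ 3 ^ 3 := pow_le_pow_left₀ (Real.exp_pos _).le (by linarith) 3
        _ ≤ 32 := by norm_num
    have c4 : Real.exp (3 * (pf h).card) ≤ 32 ^ h.natDegree := by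
      rw [mul_comm, Real.exp_nat_mul]
      exact (pow_le_pow_left₀ (Real.exp_pos _).le c3 _).trans (pow_le_pow_right₀ (by norm_num) c2)
    have c5 : (4 / 3 : ℝ) ^ h.natDegree ≤ 32 ^ h.natDegree :=
      pow_le_pow_left₀ (by norm_num) (by norm_num) _
    have c6 : (1 : ℝ) ≤ 32 ^ h.natDegree := one_le_pow₀ (by norm_num)
    have c7 : (32 : ℝ) ^ h.natDegree * n ≤ qq F t := by
      calc _ ≤ qq F (5 * h.natDegree) * qq F (t / 2) := by
            refine mul_le_mul (le_trans (le_of_eq ?_) (two_pow_le_qq _)) hP (by positivity)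
              (qq_pos _).le
            rw [pow_mul]; norm_num
        _ ≤ _ := by rw [← qq_add]; exact qq_mono (by omega)
    have c8 := mul_le_mul_of_nonneg_right c4 (Real.exp_pos 18).le
    rw [div_lt_iff₀ hε] at hn₇
    rw [div_le_iff₀ hq1, abs_of_pos (by positivity), Real.exp_add]
    generalize (32 : ℝ) ^ h.natDegree = z at *
    have c9 : z * (2 * (43 + 3 * Real.exp 18)) ≤ z * (n * ε) :=
      mul_le_mul_of_nonneg_left (by nlinarith) (by linarith)
    nlinarith [mul_le_mul_of_nonneg_right c7 hε.le]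
  have h8 := mul_le_mul_of_nonneg_right h6 (zero_le_one.trans hx)
  have h9 := (abs_le.1 h5).2
  nlinarith

theorem sum_dvd_lt {m : F[X]} (hm : m.Monic) (j : ℕ) :
    ∑ h ∈ ltF F j, ind (h ≠ 0) * ind (m ∣ h) ≤ qq F j * (1 / qq F m.natDegree) := by
  by_cases hj : m.natDegree ≤ j
  · have h1 := sum_lin_lt hm isCoprime_one_left 0 hj
    simp only [one_mul, add_zero] at h1
    rw [mul_one_div, ← h1]
    exact sum_le_sum fun h _ => mul_le_of_le_one_left (ind_nonneg _) (ind_le_one _)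
  · rw [sum_eq_zero fun h hh => ?_]
    · exact mul_nonneg (qq_pos _).le (TMass.inv_nonneg' _)
    by_cases h0 : h = 0
    · rw [ind_neg (not_not.2 h0), zero_mul]
    · have h1 := (natDegree_lt_iff_degree_lt h0).2 (mem_ltF.1 hh)
      rw [ind_neg (P := m ∣ h) fun hd => hj ((natDegree_le_of_dvd hd h0).trans h1.le), mul_zero]

theorem avg {S : Finset F[X]} (hS : ∀ P ∈ S, P.Monic ∧ Irreducible P) {b c : F[X] → ℝ}
    (hb : ∀ P ∈ S, 0 ≤ b P) (hc : ∀ P ∈ S, 0 ≤ c P) (j : ℕ) :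
    ∑ h ∈ ltF F j, ind (h ≠ 0) * ∏ P ∈ S, (c P * ind (P ∣ h) + b P) ≤
      qq F j * ∏ P ∈ S, (c P * (1 / qq F P.natDegree) + b P) := by
  classical
  simp only [prod_add, mul_sum]
  rw [sum_comm]
  refine sum_le_sum fun T hT => ?_
  have hT' : ∀ P ∈ T, P.Monic ∧ Irreducible P := fun P hP => hS P (mem_powerset.1 hT hP)
  have h1 := sum_dvd_lt (monic_prod_of_monic T (fun P => P) fun P hP => (hT' P hP).1) j
  rw [TCond.deg_prod hT', TCond.inv_qq_sum] at h1
  have h2 : 0 ≤ (∏ P ∈ T, c P) * ∏ P ∈ S \ T, b P :=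
    mul_nonneg (prod_nonneg fun P hP => hc P (mem_powerset.1 hT hP))
      (prod_nonneg fun P hP => hb P (mem_sdiff.1 hP).1)
  refine le_trans (le_of_eq ?_) ((mul_le_mul_of_nonneg_left h1 h2).trans_eq ?_)
  · rw [mul_sum]
    refine sum_congr rfl fun h _ => ?_
    rw [prod_mul_distrib, TCond.prod_ind hT']
    ring
  · rw [prod_mul_distrib]
    ring

theorem avg_sing (j D : ℕ) : ∑ h ∈ ltF F j, ind (h ≠ 0) * sing h D ≤ qq F j := by
  classical
  have h2 : ∀ P ∈ irrLE F D, 2 ≤ qq F P.natDegree := fun P hP =>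
    TSing.two_le_qq (TSing.irr_spec P hP).2
  have h1 := avg (F := F) TSing.irr_spec
    (c := fun P => 1 / qq F P.natDegree / (1 - 1 / qq F P.natDegree) ^ 2)
    (b := fun P => (1 - 2 / qq F P.natDegree) / (1 - 1 / qq F P.natDegree) ^ 2)
    (fun P hP => div_nonneg (sub_nonneg.2 ((div_le_one (qq_pos _)).2 (h2 P hP))) (sq_nonneg _))
    (fun P _ => div_nonneg (TMass.inv_nonneg' _) (sq_nonneg _)) j
  rw [prod_eq_one fun P hP => ?_, mul_one] at h1
  · refine le_trans (le_of_eq (sum_congr rfl fun h _ => ?_)) h1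
    congr 1
    refine prod_congr rfl fun P _ => ?_
    by_cases hd : P ∣ h
    · rw [if_pos hd, ind_pos hd]; ring
    · rw [if_neg hd, ind_neg hd]; ring
  · have h3 := h2 P hP
    have h4 : qq F P.natDegree - 1 ≠ 0 := by linarith
    have h5 : qq F P.natDegree ≠ 0 := by linarith
    field_simp
    ring

theorem avg_exp (j : ℕ) : ∑ h ∈ ltF F j, ind (h ≠ 0) * Real.exp (11 * wt h) ≤
    qq F j * Real.exp (3 * Real.exp 11) := by
  classical
  have h1 := avg (F := F) (S := irrLE F j) TSing.irr_spec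
    (c := fun P => Real.exp 11 * (2 / 3) ^ P.natDegree) (b := fun _ => 1)
    (fun _ _ => zero_le_one) (fun P _ => by positivity) j
  refine le_trans (sum_le_sum fun h hh => ?_)
    (h1.trans (mul_le_mul_of_nonneg_left ?_ (qq_pos _).le))
  · by_cases h0 : h = 0
    · rw [ind_neg (not_not.2 h0), zero_mul, zero_mul]
    refine mul_le_mul_of_nonneg_left ?_ (ind_nonneg _)
    have h2 := (natDegree_lt_iff_degree_lt h0).2 (mem_ltF.1 hh)
    have h3 : pf h ⊆ irrLE F j := fun P hP => by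
      obtain ⟨a, b, c⟩ := (mem_pf h0).1 hP
      exact mem_irrLE.2 ⟨a, b, (natDegree_le_of_dvd c h0).trans h2.le⟩
    rw [wt, mul_sum, Real.exp_sum, ← prod_subset h3 fun P hP hP' => by
      rw [ind_neg fun hd => hP' ((mem_pf h0).2 ⟨(mem_irrLE.1 hP).1, (mem_irrLE.1 hP).2.1, hd⟩),
        mul_zero, zero_add]]
    refine prod_le_prod (fun P _ => (Real.exp_pos _).le) fun P hP => ?_
    have a : (0 : ℝ) ≤ (2 / 3) ^ P.natDegree := by positivity
    have b : (2 / 3 : ℝ) ^ P.natDegree ≤ 1 := pow_le_one₀ (by norm_num) (by norm_num)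
    have c := convexOn_exp.2 (Set.mem_univ 11) (Set.mem_univ 0) a (sub_nonneg.2 b) (by ring)
    simp only [smul_eq_mul, mul_zero, add_zero, Real.exp_zero, mul_one] at c
    rw [ind_pos ((mem_pf h0).1 hP).2.2, mul_comm]
    linarith
  · have h2 := TSing.sum_geo (F := F) j (r := 2 / 3) (by norm_num) (by norm_num)
    refine (prod_le_prod (fun P _ => ?_) fun P _ => Real.add_one_le_exp _).trans ?_
    · have := TMass.inv_nonneg' (F := F) P.natDegree
      positivity
    · rw [← Real.exp_sum, Real.exp_le_exp]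
      simp only [mul_assoc, ← mul_sum]
      rw [mul_comm]
      exact mul_le_mul_of_nonneg_right (h2.trans (by norm_num)) (Real.exp_pos _).le

theorem sum_irr (n : ℕ) : ∑ f ∈ monF F n, ind (Irreducible f) = (irrF F n).card := by
  classical
  rw [TMult.sum_ind_card, irrF]

theorem few_bad [CharP F 2] {ε : ℝ} (hε : 0 < ε) : ∃ W : ℕ, 0 < W ∧ ∃ n₀ : ℕ, ∀ n, n₀ ≤ n →
    ∀ j, W * j ≤ n → ∑ f ∈ monF F n, ind (∀ y ∈ ltF F j, ¬ Irreducible (f + y)) ≤
      qq F n * (ε + n / qq F j) := by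
  classical
  obtain ⟨W, hW, n₁, H⟩ := twin_unif (F := F) (ε := ε / 2 / Real.exp (3 * Real.exp 11))
    (by positivity)
  obtain ⟨n₂, H₂⟩ := exists_poly (F := F) 1 1 2 two_pos
  obtain ⟨n₃, H₃⟩ := exists_nat_gt (8 / ε)
  refine ⟨W, hW, n₁ + n₂ + n₃ + 1, fun n hn j hj => ?_⟩
  have hjn : j ≤ n := (Nat.le_mul_of_pos_left j hW).trans hj
  have hd : ∀ y ∈ ltF F j, y.degree < n := fun y hy =>
    (mem_ltF.1 hy).trans_le (by exact_mod_cast hjn)
  have n0 : (0 : ℝ) < n := by exact_mod_cast (by omega)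
  have q1 := qq_pos (F := F) n
  have q2 := qq_pos (F := F) j
  set p : ℝ := ((irrF F n).card : ℝ) with hp
  set T : F[X] → ℝ := fun h => ∑ f ∈ monF F n, ind (Irreducible f ∧ Irreducible (f + h)) with hT
  set N : F[X] → ℝ := fun f => ∑ y ∈ ltF F j, ind (Irreducible (f + y)) with hN
  have a1 : ∑ f ∈ monF F n, N f = qq F j * p := by
    rw [sum_comm, sum_congr rfl fun y hy =>
      (sum_monF_shift (hd y hy) fun f => ind (Irreducible f)).trans (sum_irr n),
      ← sum_one_ltF, sum_mul]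
    simp only [one_mul, hp]
  have a2 : ∑ f ∈ monF F n, N f ^ 2 = qq F j * ∑ h ∈ ltF F j, T h := by
    simp only [hN, sq, sum_mul_sum]
    rw [sum_comm, ← sum_one_ltF, sum_mul]
    refine sum_congr rfl fun y hy => ?_
    rw [one_mul, sum_comm]
    refine (sum_bij' (fun h _ => y + h) (fun h _ => h - y) (fun h hh => ?_) (fun h hh => ?_)
      (fun _ _ => by ring) (fun _ _ => by ring) fun h _ => ?_).symm
    · exact mem_ltF.2 ((degree_add_le _ _).trans_lt (max_lt (mem_ltF.1 hy) (mem_ltF.1 hh)))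
    · exact mem_ltF.2 ((degree_sub_le _ _).trans_lt (max_lt (mem_ltF.1 hh) (mem_ltF.1 hy)))
    · rw [hT]
      refine (sum_monF_shift (hd y hy) _).symm.trans (sum_congr rfl fun f _ => ?_)
      rw [SVar.ind_and, add_assoc]
  have a3 : ∀ h ∈ ltF F j, T h ≤ ind (h = 0) * p + qq F n / n ^ 2 * (ind (h ≠ 0) * sing h n +
      ε / 2 / Real.exp (3 * Real.exp 11) * (ind (h ≠ 0) * Real.exp (11 * wt h))) := by
    intro h hh
    by_cases h0 : h = 0
    · rw [ind_pos h0, ind_neg (not_not.2 h0), hp, ← sum_irr]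
      simp only [one_mul, zero_mul, mul_zero, add_zero]
      exact sum_le_sum fun f _ => ind_mono And.left
    · have h1 := (natDegree_lt_iff_degree_lt h0).2 (mem_ltF.1 hh)
      have h2 := H n (by omega) h h0 ((Nat.mul_le_mul_left _ h1.le).trans hj)
      rw [div_le_iff₀ q1, ← le_div_iff₀' (by positivity)] at h2
      rw [ind_neg h0, ind_pos h0, zero_mul, zero_add, one_mul, one_mul]
      exact h2.trans_eq (by ring)
  have p0 : 0 ≤ p := Nat.cast_nonneg _
  have a4 : ∑ h ∈ ltF F j, T h ≤ p + qq F n / n ^ 2 * (qq F j + ε / 2 * qq F j) := by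
    refine (sum_le_sum a3).trans ?_
    rw [sum_add_distrib, ← sum_mul, ← mul_sum, sum_add_distrib, ← mul_sum]
    refine add_le_add (mul_le_of_le_one_left p0 (TBasA.sum_eq_le _ _))
      (mul_le_mul_of_nonneg_left (add_le_add (avg_sing j n) ?_) (by positivity))
    refine (mul_le_mul_of_nonneg_left (avg_exp j) (by positivity)).trans_eq ?_
    field_simp
  have a5 : ∀ f ∈ monF F n, ind (∀ y ∈ ltF F j, ¬ Irreducible (f + y)) ≤
      (n / qq F j) ^ 2 * N f ^ 2 - 2 * (n / qq F j) * N f + 1 := fun f _ => by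
    by_cases h0 : ∀ y ∈ ltF F j, ¬ Irreducible (f + y)
    · rw [ind_pos h0, show N f = 0 from sum_eq_zero fun y hy => ind_neg (h0 y hy)]
      simp
    · rw [ind_neg h0]
      nlinarith [sq_nonneg (n / qq F j * N f - 1)]
  have a6 : n * p ≤ qq F n := SConv.card_irrF_le n
  have a7 : qq F n - 2 * qq F (n / 2) ≤ n * p := card_irrF_ge (by omega)
  have a8 : 4 * qq F (n / 2) ≤ ε / 2 * qq F n := by
    have b1 := H₂ n (by omega)
    have b2 : (n₃ : ℝ) ≤ n := by exact_mod_cast (by omega)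
    have b3 : qq F (n / 2) * qq F (n / 2) ≤ qq F n := by
      rw [← qq_add]; exact qq_mono (by omega)
    have b4 := qq_pos (F := F) (n / 2)
    rw [Nat.cast_one, one_mul, pow_one] at b1
    rw [div_lt_iff₀ hε] at H₃
    have b5 : 8 ≤ qq F (n / 2) * ε := by nlinarith
    nlinarith
  refine (sum_le_sum a5).trans ?_
  rw [sum_add_distrib, sum_sub_distrib, ← mul_sum, ← mul_sum, a1, a2, sum_one_monF]
  have a9 := mul_le_mul_of_nonneg_left a4 (show 0 ≤ (n / qq F j) ^ 2 * qq F j by positivity)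
  have a10 := mul_le_mul_of_nonneg_left a6 (show 0 ≤ n / qq F j by positivity)
  have e1 : (n / qq F j) ^ 2 * qq F j * (p + qq F n / n ^ 2 * (qq F j + ε / 2 * qq F j)) =
      n / qq F j * (n * p) + qq F n + ε / 2 * qq F n := by field_simp; ring
  have e2 : 2 * (n / qq F j) * (qq F j * p) = 2 * (n * p) := by field_simp
  rw [e1, mul_assoc] at a9
  rw [e2]
  nlinarith

end Pool.Agent.MP_644200_nt.RA
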