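import Mathlib
import Pool.Agent.MP_644200_nt.RA

/- Long gaps between the positions of irreducible polynomials are rare. -/

set_option autoImplicit false
set_option linter.unusedSectionVars false

namespace Pool.Agent.MP_644200_nt.RB

open Polynomial Finset Filter Pool.Agent.MP_4fffd4_nt Pool.Agent.MP_c853c5_nt
  Pool.Agent.MP_43e117_nt
open scoped BigOperators Topology

variable {F : Type*} [Field F] [Fintype F] (dig : F ≃ Fin (Fintype.card F))

theorem val_div_eq {f g : F[X]} {j d : ℕ} (hj : j ≤ d) (h : ∀ i, j ≤ i → f.coeff i = g.coeff i) :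
    val dig f d / Fintype.card F ^ j = val dig g d / Fintype.card F ^ j := by
  obtain ⟨r, rfl⟩ := Nat.exists_eq_add_of_le hj
  have key : ∀ f : F[X], val dig f (j + r) / Fintype.card F ^ j =
      ∑ i ∈ range r, (dig (f.coeff (j + i)) : ℕ) * Fintype.card F ^ i := fun f => by
    have e : val dig f (j + r) = val dig f j + Fintype.card F ^ j *
        ∑ i ∈ range r, (dig (f.coeff (j + i)) : ℕ) * Fintype.card F ^ i := by
      rw [val, sum_range_add, mul_sum, val]
      congr 1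
      exact sum_congr rfl fun i _ => by ring
    rw [e, Nat.add_mul_div_left _ _ (pow_pos Fintype.card_pos j), Nat.div_eq_of_lt (val_lt dig f j),
      zero_add]
  rw [key, key]
  exact sum_congr rfl fun i _ => by rw [h _ (Nat.le_add_right _ _)]

theorem val_surj {d v : ℕ} (hv : v < Fintype.card F ^ d) : ∃ f ∈ monF F d, val dig f d = v := by
  classical
  have h : (monF F d).image (fun f => val dig f d) = range (Fintype.card F ^ d) := by
    refine eq_of_subset_of_card_le (fun v hv => ?_) ?_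
    · obtain ⟨f, -, rfl⟩ := mem_image.1 hv
      exact mem_range.2 (val_lt dig f d)
    · rw [card_range, card_image_of_injOn, card_monF]
      intro f hf g hg e
      obtain ⟨a, b⟩ := mem_monF.1 (mem_coe.1 hf)
      obtain ⟨a', b'⟩ := mem_monF.1 (mem_coe.1 hg)
      refine pos_inj dig a a' ?_
      rw [pos_eq, pos_eq, b, b']
      exact congrArg _ e
  exact mem_image.1 (h ▸ mem_range.2 hv)

theorem blocks {d j : ℕ} (hj : j ≤ d) (K : Finset ℕ)
    (hK : ∀ k ∈ K, base F d ≤ Nat.nth (S dig) k ∧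
      Nat.nth (S dig) k + 2 * Fintype.card F ^ j ≤ Nat.nth (S dig) (k + 1) ∧
      Nat.nth (S dig) k + 2 * Fintype.card F ^ j ≤ base F (d + 1)) :
    (K.card : ℝ) * qq F j ≤ ∑ f ∈ monF F d, ind (∀ y ∈ ltF F j, ¬ Irreducible (f + y)) := by
  classical
  rw [TMult.sum_ind_card, qq, ← Nat.cast_pow]
  have hQ : 0 < Fintype.card F ^ j := pow_pos Fintype.card_pos j
  have hv := fun {f g : F[X]} => val_div_eq dig (f := f) (g := g) hj
  rw [base_succ] at hK
  generalize Fintype.card F ^ j = Q at *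
  have h1 := card_le_card_of_injOn (s := K ×ˢ range Q)
    (t := ((monF F d).filter fun f => ∀ y ∈ ltF F j, ¬ Irreducible (f + y)).image
      fun f => val dig f d)
    (fun x => x.2 + Q * ((Nat.nth (S dig) x.1 - base F d) / Q + 1)) (fun x hx => ?_)
    fun x hx x' hx' e => ?_
  · rw [card_product, card_range] at h1
    exact_mod_cast h1.trans card_image_le
  · obtain ⟨a, b⟩ := mem_product.1 (mem_coe.1 hx)
    obtain ⟨c1, c2, c3⟩ := hK _ a
    have b := mem_range.1 b
    have c4 := Nat.mul_div_le (Nat.nth (S dig) x.1 - base F d) Q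
    have c5 := Nat.lt_mul_div_succ (Nat.nth (S dig) x.1 - base F d) hQ
    beta_reduce
    generalize (Nat.nth (S dig) x.1 - base F d) / Q = A at *
    obtain ⟨f, hf, e⟩ := val_surj dig (d := d) (v := x.2 + Q * (A + 1)) (by
      rw [mul_add]; omega)
    refine mem_coe.2 (mem_image.2 ⟨f, mem_filter.2 ⟨hf, fun y hy hi => ?_⟩, e⟩)
    obtain ⟨m1, m2⟩ := mem_monF.1
      (TReg.add_mem ((mem_ltF.1 hy).trans_le (by exact_mod_cast hj)) hf)
    have c6 : val dig (f + y) d / Q = A + 1 := by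
      rw [hv (g := f) fun i hi => by
        rw [coeff_add, coeff_eq_zero_of_degree_lt ((mem_ltF.1 hy).trans_le (by exact_mod_cast hi)),
          add_zero], e, Nat.add_mul_div_left _ _ hQ, Nat.div_eq_of_lt b, zero_add]
    have c7 := Nat.mul_div_le (val dig (f + y) d) Q
    have c8 := Nat.lt_mul_div_succ (val dig (f + y) d) hQ
    have c9 := Nat.le_nth_of_lt_nth_succ (p := S dig) (k := x.1) (a := pos dig (f + y))
    rw [pos_eq, m2] at c9
    rw [c6] at c7 c8
    simp only [mul_add, mul_one] at c5 c7 c8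
    have := c9 (by omega) ⟨f + y, m1, hi, by rw [pos_eq, m2]⟩
    omega
  · obtain ⟨a, b⟩ := mem_product.1 (mem_coe.1 hx)
    obtain ⟨a', b'⟩ := mem_product.1 (mem_coe.1 hx')
    have e1 := congrArg (· % Q) e
    have e2 := congrArg (· / Q) e
    simp only [Nat.add_mul_mod_self_left, Nat.mod_eq_of_lt (mem_range.1 b),
      Nat.mod_eq_of_lt (mem_range.1 b')] at e1
    simp only [Nat.add_mul_div_left _ _ hQ, Nat.div_eq_of_lt (mem_range.1 b),
      Nat.div_eq_of_lt (mem_range.1 b'), zero_add, add_left_inj] at e2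
    have key : ∀ k ∈ K, ∀ k' ∈ K, (Nat.nth (S dig) k - base F d) / Q =
        (Nat.nth (S dig) k' - base F d) / Q → ¬ k < k' := fun k hk k' _ e3 hlt => by
      obtain ⟨c1, c2, -⟩ := hK _ hk
      have c3 := Nat.nth_monotone (infinite_S dig) (show k + 1 ≤ k' from hlt)
      have c4 := Nat.mul_div_le (Nat.nth (S dig) k - base F d) Q
      have c5 := Nat.lt_mul_div_succ (Nat.nth (S dig) k' - base F d) hQ
      rw [← e3, mul_add] at c5
      omega
    exact Prod.ext (le_antisymm (not_lt.1 (key _ a' _ a e2.symm)) (not_lt.1 (key _ a _ a' e2))) e1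

theorem deg_count [CharP F 2] {ε δ : ℝ} (hε : 0 < ε) (hδ : 0 < δ) (hδ1 : δ ≤ 1) :
    ∃ d₀ : ℕ, ∀ d, d₀ ≤ d → ∀ K : Finset ℕ, (∀ k ∈ K, base F d ≤ Nat.nth (S dig) k ∧
      Nat.nth (S dig) k < base F (d + 1) ∧
      Nat.nth (S dig) k + δ * d ^ 2 ≤ Nat.nth (S dig) (k + 1)) →
      (K.card : ℝ) ≤ ε * (qq F d / d ^ 2) := by
  classical
  have hq := two_le_card (F := F)
  obtain ⟨W, hW, n₁, H⟩ := RA.few_bad (F := F) (ε := ε * δ / (8 * Fintype.card F)) (by positivity)
  obtain ⟨n₂, H₂⟩ := poly_le 1 2 W hW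
  obtain ⟨n₃, H₃⟩ := exists_poly (F := F) 1 3 1 one_pos
  obtain ⟨n₄, H₄⟩ := exists_nat_gt (16 * (Fintype.card F : ℝ) ^ 2 / (ε * δ ^ 2) + 2 / ε + 2 / δ)
  refine ⟨n₁ + n₂ + n₃ + n₄ + 1, fun d hd K hK => ?_⟩
  have d1 : (1 : ℝ) ≤ d := by exact_mod_cast (by omega)
  have d4 : (n₄ : ℝ) ≤ d := by exact_mod_cast (by omega)
  have p1 : 0 < 16 * (Fintype.card F : ℝ) ^ 2 / (ε * δ ^ 2) := by positivity
  have p2 : 0 < 2 / ε := by positivity
  have p3 : 0 < 2 / δ := by positivity
  have a1 : 16 * (Fintype.card F : ℝ) ^ 2 ≤ d * (ε * δ ^ 2) :=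
    (div_le_iff₀ (by positivity)).1 (by linarith)
  have a2 : 2 ≤ d * ε := (div_le_iff₀ hε).1 (by linarith)
  have a3 : 2 ≤ d * δ := (div_le_iff₀ hδ).1 (by linarith)
  have a4 : ⌊δ * d ^ 2 / 2⌋₊ ≠ 0 := (Nat.floor_pos.2 (by nlinarith)).ne'
  have b1 := Nat.pow_log_le_self (Fintype.card F) a4
  have b2 := Nat.lt_pow_succ_log_self (Fintype.one_lt_card (α := F)) ⌊δ * d ^ 2 / 2⌋₊
  generalize Nat.log (Fintype.card F) ⌊δ * d ^ 2 / 2⌋₊ = j at b1 b2
  have b3 : qq F j ≤ δ * d ^ 2 / 2 :=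
    le_trans (by rw [qq]; exact_mod_cast b1) (Nat.floor_le (by positivity))
  have b4 : δ * d ^ 2 / 2 ≤ qq F j * Fintype.card F :=
    (Nat.lt_floor_add_one _).le.trans (by rw [qq, ← pow_succ]; exact_mod_cast b2)
  have b5 : W * j ≤ d := by
    have c1 : (2 : ℝ) ^ j ≤ (1 * d) ^ 2 := (two_pow_le_qq j).trans (b3.trans (by nlinarith))
    have c2 : 2 ^ j ≤ 2 ^ (d / W) := le_trans (by exact_mod_cast c1) (H₂ d (by omega))
    rw [mul_comm]
    exact (Nat.le_div_iff_mul_le hW).1 ((Nat.pow_le_pow_iff_right one_lt_two).1 c2)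
  have b6 : ∀ k ∈ K, Nat.nth (S dig) k + 2 * Fintype.card F ^ j ≤ Nat.nth (S dig) (k + 1) := by
    intro k hk
    have c1 := (hK k hk).2.2
    rw [qq] at b3
    exact_mod_cast (show (Nat.nth (S dig) k : ℝ) + 2 * (Fintype.card F : ℝ) ^ j ≤
      Nat.nth (S dig) (k + 1) by linarith)
  have c1 := (blocks dig ((Nat.le_mul_of_pos_left j hW).trans b5)
    (K.filter fun k => Nat.nth (S dig) k + 2 * Fintype.card F ^ j ≤ base F (d + 1))
    fun k hk => ⟨(hK k (mem_filter.1 hk).1).1, b6 k (mem_filter.1 hk).1, (mem_filter.1 hk).2⟩).trans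
    (H d (by omega) j b5)
  have c2 : (K.filter fun k =>
      ¬ Nat.nth (S dig) k + 2 * Fintype.card F ^ j ≤ base F (d + 1)).card ≤ 1 := by
    have key : ∀ k ∈ K, ∀ k' ∈ K, ¬ Nat.nth (S dig) k + 2 * Fintype.card F ^ j ≤ base F (d + 1) →
        ¬ k < k' := fun k hk k' hk' e hlt => by
      have e1 := Nat.nth_monotone (infinite_S dig) (show k + 1 ≤ k' from hlt)
      have e2 := b6 k hk
      have e3 := (hK k' hk').2.1
      omega
    refine card_le_one.2 fun k hk k' hk' => ?_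
    rw [mem_filter] at hk hk'
    exact le_antisymm (not_lt.1 (key _ hk'.1 _ hk.1 hk'.2)) (not_lt.1 (key _ hk.1 _ hk'.1 hk.2))
  have c3 := card_filter_add_card_filter_not (s := K)
    fun k => Nat.nth (S dig) k + 2 * Fintype.card F ^ j ≤ base F (d + 1)
  generalize (K.filter fun k =>
    Nat.nth (S dig) k + 2 * Fintype.card F ^ j ≤ base F (d + 1)).card = A at c1 c3
  have c4 : (K.card : ℝ) ≤ A + 1 := by exact_mod_cast (by omega)
  have q1 := qq_pos (F := F) j
  have q2 := qq_pos (F := F) d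
  have c5 : d / qq F j ≤ ε * δ / (8 * Fintype.card F) := by
    rw [div_le_div_iff₀ q1 (by positivity)]
    refine le_of_mul_le_mul_right ?_ (show (0 : ℝ) < Fintype.card F by positivity)
    have e1 := mul_le_mul_of_nonneg_left b4 (show 0 ≤ ε * δ by positivity)
    have e2 := mul_le_mul_of_nonneg_left a1 (show (0 : ℝ) ≤ d by positivity)
    nlinarith
  have c6 : (A : ℝ) ≤ ε / 2 * (qq F d / d ^ 2) := by
    have e1 : A * qq F j ≤ qq F d * (ε * δ / (4 * Fintype.card F)) :=
      c1.trans (mul_le_mul_of_nonneg_left ((add_le_add le_rfl c5).trans_eq (by ring)) q2.le)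
    have e2 := mul_le_mul_of_nonneg_left b4 (Nat.cast_nonneg (α := ℝ) A)
    have e3 := mul_le_mul_of_nonneg_right e1 (show (0 : ℝ) ≤ Fintype.card F by positivity)
    rw [show qq F d * (ε * δ / (4 * Fintype.card F)) * Fintype.card F = qq F d * (ε * δ) / 4 by
      field_simp] at e3
    rw [← mul_div_assoc, le_div_iff₀ (by positivity)]
    refine le_of_mul_le_mul_right ?_ hδ
    nlinarith
  have c7 : 1 ≤ ε / 2 * (qq F d / d ^ 2) := by
    have e1 := H₃ d (by omega)
    rw [Nat.div_one, Nat.cast_one, one_mul] at e1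
    rw [← mul_div_assoc, le_div_iff₀ (by positivity)]
    nlinarith [mul_le_mul_of_nonneg_left e1 hε.le,
      mul_le_mul_of_nonneg_right a2 (show (0 : ℝ) ≤ d ^ 2 by positivity)]
  linarith

theorem sum_irr_le (d : ℕ) : ((d : ℝ) + 3) * ∑ k ∈ range (d + 1), ((irrF F k).card : ℝ) ≤
    12 * qq F d := by
  classical
  induction d with
  | zero =>
    have : (irrF F 0).card ≤ 1 := by
      rw [irrF]
      exact (card_filter_le _ _).trans (by rw [card_monF, pow_zero])
    have : ((irrF F 0).card : ℝ) ≤ 1 := by exact_mod_cast this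
    rw [sum_range_one, qq_zero]
    push_cast
    linarith
  | succ d ih =>
    have h1 : ((d + 1 : ℕ) : ℝ) * (irrF F (d + 1)).card ≤ qq F (d + 1) := SConv.card_irrF_le _
    have h2 : 2 * qq F d ≤ qq F (d + 1) := by
      rw [qq_add, mul_comm]
      exact mul_le_mul_of_nonneg_left (by simpa using two_pow_le_qq (F := F) 1) (qq_pos d).le
    have h3 : (0 : ℝ) ≤ ∑ k ∈ range (d + 1), ((irrF F k).card : ℝ) := by positivity
    have h4 : (0 : ℝ) ≤ (irrF F (d + 1)).card := by positivity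
    have h5 : (0 : ℝ) ≤ d := by positivity
    rw [sum_range_succ _ (d + 1)]
    push_cast at h1 ⊢
    nlinarith [mul_nonneg h5 h3, mul_nonneg h5 h4]

theorem index_le {k d : ℕ} (h : Nat.nth (S dig) k < base F (d + 1)) :
    ((d : ℝ) + 3) * (k + 1) ≤ 12 * qq F d := by
  classical
  refine le_trans (mul_le_mul_of_nonneg_left ?_ (by positivity)) (sum_irr_le d)
  have h1 : k < Nat.count (S dig) (base F (d + 1)) :=
    (Nat.lt_nth_iff_count_lt (infinite_S dig)).2 h
  have h2 : Nat.count (S dig) (base F (d + 1)) ≤ ∑ k ∈ range (d + 1), (irrF F k).card := by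
    rw [Nat.count_eq_card_filter_range]
    refine le_trans (card_le_card (t := ((range (d + 1)).biUnion (irrF F)).image (pos dig))
      fun m hm => ?_) (card_image_le.trans card_biUnion_le)
    obtain ⟨a, f, b1, b2, rfl⟩ := mem_filter.1 hm
    refine mem_image_of_mem _ (mem_biUnion.2 ⟨_, mem_range.2 ?_, mem_irrF.2 ⟨b1, rfl, b2⟩⟩)
    rw [mem_range, pos_eq] at a
    exact base_mono.lt_iff_lt.1 ((Nat.le_add_right _ _).trans_lt a)
  exact_mod_cast h1.trans_le h2

theorem base_bounds (d : ℕ) : Fintype.card F ^ d ≤ base F (d + 1) ∧ base F d ≤ Fintype.card F ^ d := by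
  refine ⟨by rw [base_succ]; omega, ?_⟩
  induction d with
  | zero => simp [base]
  | succ d ih =>
    rw [base_succ, pow_succ]
    have := Nat.mul_le_mul_left (Fintype.card F ^ d) (Fintype.one_lt_card (α := F))
    omega

theorem exists_deg (k : ℕ) :
    ∃ d, base F d ≤ Nat.nth (S dig) k ∧ Nat.nth (S dig) k < base F (d + 1) := by
  obtain ⟨f, -, -, h⟩ := Nat.nth_mem_of_infinite (infinite_S dig) k
  exact ⟨f.natDegree, h ▸ (pos_eq dig f).ge.trans' (Nat.le_add_right _ _), h ▸ pos_lt dig f⟩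

theorem gap_of_fail {c n p p' : ℝ} (h0 : 0 ≤ c) (h1 : c < 1) (hn : 1 + 4 / (1 - c) ≤ n)
    (hp : n ≤ p) (hp' : p ≤ p')
    (h : 1 - c * Real.log n / n ^ 2 ≤ p' ^ (1 / (n + 1)) / p ^ (1 / n)) :
    (1 - c) / 2 * Real.log p * p ≤ (p' - p) * n := by
  have a0 : 4 ≤ 4 / (1 - c) := by rw [le_div_iff₀ (by linarith)]; linarith
  have a1 : 4 ≤ (n - 1) * (1 - c) := (div_le_iff₀ (by linarith)).1 (by linarith)
  have n0 : 0 < n := by linarith
  have p0 : 0 < p := by linarith
  have L0 : 0 ≤ Real.log n := Real.log_nonneg (by linarith)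
  have L1 : Real.log n ≤ n := (Real.log_le_sub_one_of_pos n0).trans (by linarith)
  have L2 : Real.log n ≤ Real.log p := Real.log_le_log n0 hp
  rw [Real.rpow_def_of_pos (by linarith), Real.rpow_def_of_pos p0, ← Real.exp_sub] at h
  set x := c * Real.log n / n ^ 2 with hx
  have x0 : 0 ≤ x := by positivity
  have x1 : x * n ≤ 1 := by
    rw [hx, div_mul_eq_mul_div, div_le_one (by positivity)]
    nlinarith [mul_le_mul h1.le L1 L0 zero_le_one]
  have x2 : 0 < 1 - x := by nlinarith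
  have b1 := (Real.one_sub_inv_le_log_of_pos x2).trans ((Real.log_le_iff_le_exp x2).2 h)
  have b2 : (1 - x)⁻¹ ≤ 1 + x * (n / (n - 1)) := by
    rw [inv_le_iff_one_le_mul₀ x2]
    have : 1 ≤ n / (n - 1) * (1 - x) := by
      rw [div_mul_eq_mul_div, le_div_iff₀ (by linarith)]
      linarith
    nlinarith [mul_le_mul_of_nonneg_left this x0]
  have b3 : Real.log p' ≤ Real.log p + (p' - p) / p := by
    have := Real.log_le_sub_one_of_pos (show 0 < p' / p from div_pos (by linarith) p0)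
    rw [Real.log_div (by linarith) p0.ne'] at this
    rw [sub_div, div_self p0.ne']
    linarith
  have b4 : -(x * (n / (n - 1))) * (n * (n + 1)) ≤
      (Real.log p' * (1 / (n + 1)) - Real.log p * (1 / n)) * (n * (n + 1)) :=
    mul_le_mul_of_nonneg_right (by linarith) (by positivity)
  have e1 : (Real.log p' * (1 / (n + 1)) - Real.log p * (1 / n)) * (n * (n + 1)) =
      Real.log p' * n - Real.log p * (n + 1) := by field_simp
  have e2 : -(x * (n / (n - 1))) * (n * (n + 1)) = -(Real.log n * (c * (n + 1) / (n - 1))) := by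
    have : n - 1 ≠ 0 := by linarith
    rw [hx]
    field_simp
  have b5 : c * (n + 1) / (n - 1) ≤ 1 - (1 - c) / 2 := by
    rw [div_le_iff₀ (by linarith)]
    nlinarith
  have b6 : Real.log n * (c * (n + 1) / (n - 1)) ≤ Real.log p * (1 - (1 - c) / 2) :=
    mul_le_mul L2 b5 (div_nonneg (by positivity) (by linarith)) (L0.trans L2)
  have b7 := mul_le_mul_of_nonneg_right b3 n0.le
  rw [e1, e2] at b4
  rw [← le_div_iff₀ p0, ← div_mul_eq_mul_div]
  nlinarith

theorem sum_pow_le (D : ℕ) :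
    ∑ d ∈ range (D + 1), qq F d / ((d : ℝ) + 3) ^ 2 ≤ 9 * (qq F D / ((D : ℝ) + 3) ^ 2) := by
  induction D with
  | zero =>
    rw [sum_range_one]
    have := qq_pos (F := F) 0
    exact le_mul_of_one_le_left (by positivity) (by norm_num)
  | succ D ih =>
    have h2 : 2 * qq F D ≤ qq F (D + 1) := by
      rw [qq_add, mul_comm]
      exact mul_le_mul_of_nonneg_left (by simpa using two_pow_le_qq (F := F) 1) (qq_pos D).le
    have h3 : 9 * (qq F D / ((D : ℝ) + 3) ^ 2) ≤ 8 * (qq F (D + 1) / ((D + 1 : ℕ) + 3) ^ 2) := by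
      have h4 := qq_pos (F := F) D
      have h5 : (0 : ℝ) ≤ D := by positivity
      rw [← mul_div_assoc, ← mul_div_assoc, div_le_div_iff₀ (by positivity) (by positivity)]
      push_cast
      have h6 : 9 * ((D : ℝ) + 1 + 3) ^ 2 ≤ 16 * (D + 3) ^ 2 := by nlinarith
      nlinarith [mul_le_mul_of_nonneg_left h6 h4.le,
        mul_le_mul_of_nonneg_right h2 (show (0 : ℝ) ≤ (D + 3) ^ 2 by positivity)]
    rw [sum_range_succ _ (D + 1)]
    linarith

theorem gap_deg {c : ℝ} (h0 : 0 ≤ c) (h1 : c < 1) {k d : ℕ} (hk : 4 / (1 - c) ≤ k) (hd : 2 ≤ d)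
    (h2 : base F d ≤ Nat.nth (S dig) k) (h3 : Nat.nth (S dig) k < base F (d + 1))
    (h : 1 - c * Real.log (k + 1 : ℕ) / ((k + 1 : ℕ) : ℝ) ^ 2 ≤
      (pr dig (k + 1 + 1) : ℝ) ^ (1 / (((k + 1 : ℕ) : ℝ) + 1)) /
        (pr dig (k + 1) : ℝ) ^ (1 / ((k + 1 : ℕ) : ℝ))) :
    Nat.nth (S dig) k + (1 - c) / (96 * Fintype.card F) * d ^ 2 ≤ Nat.nth (S dig) (k + 1) := by
  classical
  have a1 : k < Nat.nth (S dig) k := by
    have b1 := Nat.count_nth_of_infinite (infinite_S dig) k
    rw [Nat.count_eq_card_filter_range] at b1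
    have b2 : (range (Nat.nth (S dig) k)).filter (S dig) ⊆ Ico 1 (Nat.nth (S dig) k) :=
      fun m hm => by
        obtain ⟨a, f, -, -, rfl⟩ := mem_filter.1 hm
        exact mem_Ico.2 ⟨Nat.le_add_right _ _, mem_range.1 a⟩
    have b3 := card_le_card b2
    have b4 : 1 ≤ base F d := Nat.le_add_right _ _
    rw [b1, Nat.card_Ico] at b3
    omega
  have a2 := Nat.nth_monotone (infinite_S dig) (Nat.le_succ k)
  have a3 := gap_of_fail h0 h1 (n := (k + 1 : ℕ)) (p := Nat.nth (S dig) k)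
    (p' := Nat.nth (S dig) (k + 1)) (by push_cast; linarith) (by exact_mod_cast a1)
    (by exact_mod_cast a2) h
  have a4 := index_le dig h3
  obtain ⟨e, rfl⟩ : ∃ e, d = e + 1 := ⟨d - 1, by omega⟩
  have a5 : qq F e ≤ Nat.nth (S dig) k := by
    rw [qq]; exact_mod_cast (base_bounds e).1.trans h2
  have a6 : (e : ℝ) * Real.log 2 ≤ Real.log (Nat.nth (S dig) k) := by
    rw [← Real.log_pow]
    exact Real.log_le_log (by positivity) ((two_pow_le_qq e).trans a5)
  have a7 : (1 : ℝ) ≤ e := by exact_mod_cast (by omega)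
  have a8 : (0 : ℝ) ≤ (Nat.nth (S dig) (k + 1) : ℝ) - Nat.nth (S dig) k :=
    sub_nonneg.2 (by exact_mod_cast a2)
  have a9 := Real.log_two_gt_d9
  have q0 := card_pos' (F := F)
  have q1 := qq_pos (F := F) e
  rw [qq_add, qq.eq_1 F 1, pow_one] at a4
  push_cast at a3 a4 ⊢
  rw [← le_sub_iff_add_le', div_mul_eq_mul_div, div_le_iff₀ (by positivity)]
  generalize (Nat.nth (S dig) (k + 1) : ℝ) - Nat.nth (S dig) k = g at *
  generalize (Nat.nth (S dig) k : ℝ) = p at *
  generalize Real.log p = L at *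
  have p0 : 0 < p := q1.trans_le a5
  have b1 : ((e : ℝ) + 1) * (k + 1) ≤ 12 * (p * Fintype.card F) := by
    nlinarith [mul_le_mul_of_nonneg_right a5 q0.le, Nat.cast_nonneg (α := ℝ) k]
  have b2 : ((e : ℝ) + 1) / 4 ≤ L := by nlinarith
  have b3 : (1 - c) / 2 * ((e + 1) / 4) * p ≤ g * (k + 1) :=
    le_trans (by gcongr) a3
  have b4 := mul_le_mul_of_nonneg_left b1 a8
  have b5 := mul_le_mul_of_nonneg_right b3 (show (0 : ℝ) ≤ e + 1 by positivity)
  refine le_of_mul_le_mul_right ?_ p0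
  nlinarith

theorem count_fail [CharP F 2] {c ε : ℝ} (h0 : 0 ≤ c) (h1 : c < 1) (hε : 0 < ε) :
    ∃ n₁ : ℕ, ∀ N D : ℕ, Nat.nth (S dig) N < base F (D + 1) →
      ({n : ℕ | n ≤ N ∧ 1 - c * Real.log n / (n : ℝ) ^ 2 ≤
        (pr dig (n + 1) : ℝ) ^ (1 / ((n : ℝ) + 1)) / (pr dig n : ℝ) ^ (1 / (n : ℝ))}.ncard : ℝ) ≤
        n₁ + ε * (qq F D / ((D : ℝ) + 3) ^ 2) := by
  classical
  have hq := two_le_card (F := F)
  obtain ⟨d₀, H⟩ := deg_count dig (ε := ε / 144) (δ := (1 - c) / (96 * Fintype.card F))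
    (by positivity) (div_pos (by linarith) (by positivity))
    ((div_le_one (by positivity)).2 (by linarith))
  obtain ⟨k₀, hk₀⟩ := exists_nat_ge (4 / (1 - c))
  refine ⟨k₀ + base F (d₀ + 2) + 1, fun N D hD => ?_⟩
  set K : ℕ → Finset ℕ := fun d => (range N).filter fun k => d₀ + 2 ≤ d ∧
    base F d ≤ Nat.nth (S dig) k ∧ Nat.nth (S dig) k < base F (d + 1) ∧
      Nat.nth (S dig) k + (1 - c) / (96 * Fintype.card F) * d ^ 2 ≤ Nat.nth (S dig) (k + 1)
    with hK
  have a1 : ∀ d ∈ range (D + 1), ((K d).card : ℝ) ≤ ε / 9 * (qq F d / ((d : ℝ) + 3) ^ 2) := by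
    intro d _
    have q1 := qq_pos (F := F) d
    by_cases hd : d₀ + 2 ≤ d
    · refine (H d (by omega) (K d) fun k hk => (mem_filter.1 hk).2.2).trans ?_
      have b1 : (1 : ℝ) ≤ d := by exact_mod_cast (by omega)
      rw [← mul_div_assoc, ← mul_div_assoc, div_le_div_iff₀ (by positivity) (by positivity)]
      have b2 : ((d : ℝ) + 3) ^ 2 ≤ 16 * d ^ 2 := by nlinarith
      nlinarith [mul_le_mul_of_nonneg_left b2 (mul_pos hε q1).le]
    · rw [show K d = ∅ from filter_eq_empty_iff.2 fun k _ hk => hd hk.1, card_empty, Nat.cast_zero]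
      positivity
  have a2 := Set.ncard_le_ncard (s := {n : ℕ | n ≤ N ∧ 1 - c * Real.log n / (n : ℝ) ^ 2 ≤
      (pr dig (n + 1) : ℝ) ^ (1 / ((n : ℝ) + 1)) / (pr dig n : ℝ) ^ (1 / (n : ℝ))})
    (t := ↑(range (k₀ + base F (d₀ + 2) + 1) ∪ ((range (D + 1)).biUnion K).image (· + 1)))
    (fun n hn => ?_) (Finset.finite_toSet _)
  · rw [Set.ncard_coe_finset] at a2
    have a3 := a2.trans ((card_union_le _ _).trans
      (add_le_add (card_range _).le (card_image_le.trans card_biUnion_le)))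
    have a4 := sum_le_sum a1
    rw [← mul_sum] at a4
    have a5 := mul_le_mul_of_nonneg_left (sum_pow_le (F := F) D) (show 0 ≤ ε / 9 by positivity)
    refine le_trans (by exact_mod_cast a3) (add_le_add le_rfl (a4.trans (a5.trans_eq (by ring))))
  · obtain ⟨b1, b2⟩ := hn
    rw [mem_coe, mem_union, mem_range]
    by_cases b3 : n < k₀ + base F (d₀ + 2) + 1
    · exact Or.inl b3
    obtain ⟨k, rfl⟩ : ∃ k, n = k + 1 := ⟨n - 1, by omega⟩
    obtain ⟨d, c1, c2⟩ := exists_deg dig k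
    have c3 := (Nat.nth_strictMono (infinite_S dig)).id_le k
    have c4 := Nat.nth_monotone (infinite_S dig) (show k ≤ N by omega)
    have c5 := (base_mono (F := F)).lt_iff_lt.1 (show base F (d₀ + 2) < base F (d + 1) by
      simp only [id] at c3; omega)
    have c6 := (base_mono (F := F)).lt_iff_lt.1 (show base F d < base F (D + 1) by omega)
    refine Or.inr (mem_image_of_mem _ (mem_biUnion.2 ⟨d, mem_range.2 c6, mem_filter.2
      ⟨mem_range.2 (by omega), by omega, c1, c2, gap_deg dig h0 h1 ?_ (by omega) c1 c2 b2⟩⟩))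
    exact hk₀.trans (by exact_mod_cast (by omega))

theorem rare [CharP F 2] {c : ℝ} (hc : c < 1) :
    Tendsto (fun N : ℕ => ({n : ℕ | n ≤ N ∧ 1 - c * Real.log n / (n : ℝ) ^ 2 ≤
      (pr dig (n + 1) : ℝ) ^ (1 / ((n : ℝ) + 1)) / (pr dig n : ℝ) ^ (1 / (n : ℝ))}.ncard : ℝ) *
        Real.log N / N) atTop (𝓝 0) := by
  classical
  have hq := two_le_card (F := F)
  wlog h0 : 0 ≤ c generalizing c
  · refine squeeze_zero (fun N => by positivity) (fun N => ?_) (this zero_lt_one le_rfl)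
    refine div_le_div_of_nonneg_right (mul_le_mul_of_nonneg_right (Nat.cast_le.2
      (Set.ncard_le_ncard (fun n hn => ⟨hn.1, le_trans ?_ hn.2⟩)
        ((Set.finite_Iic N).subset fun n hn => hn.1))) (Real.log_natCast_nonneg N))
      (Nat.cast_nonneg N)
    gcongr
    exact (not_le.1 h0).le
  rw [Metric.tendsto_atTop]
  intro ε hε
  obtain ⟨n₁, H⟩ := count_fail dig h0 hc (ε := ε / (4 * (Fintype.card F : ℝ) ^ 2)) (by positivity)
  have t1 : Tendsto (fun N : ℕ => (n₁ : ℝ) * (Real.log N / N)) atTop (𝓝 (n₁ * 0)) :=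
    (Real.isLittleO_log_id_atTop.tendsto_div_nhds_zero.comp tendsto_natCast_atTop_atTop).const_mul _
  rw [mul_zero] at t1
  obtain ⟨n₂, H₂⟩ := eventually_atTop.1 (t1.eventually (gt_mem_nhds (half_pos hε)))
  refine ⟨n₂ + base F 5, fun N hN => ?_⟩
  obtain ⟨D, c1, c2⟩ := exists_deg dig N
  have c3 : N ≤ Nat.nth (S dig) N := (Nat.nth_strictMono (infinite_S dig)).id_le N
  have c4 := (base_mono (F := F)).lt_iff_lt.1 (show base F 5 < base F (D + 1) by omega)
  obtain ⟨e, rfl⟩ : ∃ e, D = e + 1 := ⟨D - 1, by omega⟩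
  have c5 := sum_le_count dig c1
  rw [Nat.count_nth_of_infinite (infinite_S dig), sum_range_succ] at c5
  have c6 : qq F e / (2 * e) ≤ N :=
    (card_irrF (by omega)).trans (by exact_mod_cast le_trans (Nat.le_add_left _ _) c5)
  have e4 : (4 : ℝ) ≤ e := by exact_mod_cast (by omega)
  have q1 := qq_pos (F := F) e
  have N0 : (0 : ℝ) < N := lt_of_lt_of_le (by positivity) c6
  have c7 : Real.log N ≤ (e + 2) * Fintype.card F := by
    have b1 : (N : ℝ) ≤ (Fintype.card F : ℝ) ^ (e + 1 + 1) := by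
      exact_mod_cast (c3.trans c2.le).trans (base_bounds _).2
    refine (Real.log_le_log N0 b1).trans ?_
    rw [Real.log_pow]
    push_cast
    refine mul_le_mul (le_of_eq (by ring)) ?_ (Real.log_nonneg (by linarith)) (by positivity)
    linarith [Real.log_le_sub_one_of_pos (show (0 : ℝ) < Fintype.card F by linarith)]
  have L0 := Real.log_natCast_nonneg N
  have c8 := H N _ c2
  have c9 := H₂ N (by omega)
  have c10 : ε / (4 * (Fintype.card F : ℝ) ^ 2) * (qq F (e + 1) / (((e + 1 : ℕ) : ℝ) + 3) ^ 2) *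
      Real.log N / N ≤ ε / 2 := by
    rw [div_le_iff₀ (by positivity)] at c6
    rw [div_le_iff₀ N0, qq_add, qq.eq_1 F 1, pow_one]
    push_cast
    calc _ ≤ ε / (4 * (Fintype.card F : ℝ) ^ 2) * (N * (2 * e) * Fintype.card F / (e + 1 + 3) ^ 2) *
          ((e + 2) * Fintype.card F) := by gcongr
      _ = ε / 2 * N * (e * (e + 2) / (e + 1 + 3) ^ 2) := by field_simp; ring
      _ ≤ _ := mul_le_of_le_one_right (by positivity)
          ((div_le_one (by positivity)).2 (by nlinarith))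
  rw [Real.dist_eq, sub_zero, abs_of_nonneg (by positivity)]
  refine lt_of_le_of_lt (div_le_div_of_nonneg_right (mul_le_mul_of_nonneg_right c8 L0) N0.le) ?_
  rw [add_mul, add_div, mul_div_assoc]
  linarith

theorem short [CharP F 2] {ε : ℝ} (hε : 0 < ε) : ∃ K n₀ : ℕ, ∀ n, n₀ ≤ n → ∀ j : ℕ,
    K * n ≤ Fintype.card F ^ j → ({f : F[X] | f.Monic ∧ f.natDegree = n ∧
      ∀ y : F[X], y.degree < j → ¬ Irreducible (f + y)}.ncard : ℝ) ≤
        ε * (Fintype.card F : ℝ) ^ n := by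
  classical
  obtain ⟨W, hW, n₁, H⟩ := RA.few_bad (F := F) (half_pos hε)
  obtain ⟨K, hK⟩ := exists_nat_gt (2 / ε)
  obtain ⟨n₂, H₂⟩ := poly_le (K * Fintype.card F + 1) 1 W hW
  refine ⟨K, n₁ + n₂ + 1, fun n hn j hj => ?_⟩
  have hex : ∃ j, K * n ≤ Fintype.card F ^ j := ⟨j, hj⟩
  have a1 := Nat.find_spec hex
  have a2 := Nat.find_min' hex hj
  have a3 : Fintype.card F ^ Nat.find hex ≤ (K * Fintype.card F + 1) * n := by
    rcases h : Nat.find hex with _ | i
    · rw [pow_zero]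
      exact Nat.mul_pos (Nat.succ_pos _) (by omega)
    · have := not_le.1 (Nat.find_min hex (show i < Nat.find hex by omega))
      rw [pow_succ]
      nlinarith
  generalize Nat.find hex = i at a1 a2 a3
  have a4 : W * i ≤ n := by
    have b1 : 2 ^ i ≤ 2 ^ (n / W) := (Nat.pow_le_pow_left (Fintype.one_lt_card (α := F)) i).trans
      (a3.trans (by simpa using H₂ n (by omega)))
    rw [mul_comm]
    exact (Nat.le_div_iff_mul_le hW).1 ((Nat.pow_le_pow_iff_right one_lt_two).1 b1)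
  have a5 := H n (by omega) i a4
  rw [TMult.sum_ind_card, ← Set.ncard_coe_finset] at a5
  have a6 : n / qq F i ≤ ε / 2 := by
    have b1 : (K : ℝ) * n ≤ qq F i := by rw [qq]; exact_mod_cast a1
    rw [div_lt_iff₀ hε] at hK
    rw [div_le_iff₀ (qq_pos i)]
    nlinarith [mul_le_mul_of_nonneg_left b1 hε.le,
      mul_le_mul_of_nonneg_right hK.le (Nat.cast_nonneg (α := ℝ) n)]
  refine le_trans (Nat.cast_le.2 (Set.ncard_le_ncard (fun f hf => ?_) (Finset.finite_toSet _)))
    (a5.trans ?_)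
  · exact mem_coe.2 (mem_filter.2 ⟨mem_monF.2 ⟨hf.1, hf.2.1⟩, fun y hy =>
      hf.2.2 y ((mem_ltF.1 hy).trans_le (by exact_mod_cast a2))⟩)
  · rw [mul_comm]
    exact mul_le_mul_of_nonneg_right (by linarith) (qq_pos n).le

end Pool.Agent.MP_644200_nt.RB
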